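import Pool.Agent.H53.GS.Defs

/-!
# Module BAI: the two Baire category arguments

`baire_countable`: choose `x₀ ∈ G` and for `x ∈ G`, `i : ℕ` a vector `ch x i` as in `hch` with `δ = 1/(i+1)`;
`Q` = range of the map `List ℕ → G` given by `[] ↦ x₀`, `i :: l ↦ (point of l) + ch _ i`.

`baire_main`. Let `Q ⊆ G` be as in `baire_countable` (for `x ∈ Q` a number `e x > 0`).
(1) For `x ∈ Q` and `m : ℕ` let `H x m` be the set of `h : X` with
`∀ t, |t| ≤ 1/(m+1) → |f (x + t • h) - f x - P x (t • h)| ≤ (m+1) * |t|^k`. It is closed (`f`, `P x` continuous)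
and `⋃ m, H x m = univ` by `hT`. So `⋃ m, interior (H x m)` is open and dense
(`dense_iUnion_interior_of_closed`), hence there is `h₀` in the intersection over the countable set `Q`
(`dense_biInter_of_isOpen`, `X` is complete): for every `x ∈ Q` there are `m` and `r > 0` with
`ball h₀ r ⊆ H x m`.
(2) Let `Z m = {y | ∀ ρ, 0 ≤ ρ → ρ ≤ 1/(m+1) →
  |∑ l ∈ range (k+1), (-1)^l * choose k l * f (y + (l*ρ) • h₀)| ≤ (m+1) * ρ^k}`. It is closed. Every `y ∈ U` is in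
some `Z m`: by `hT y h₀` and `hPd y` with `V = 0`, `w = ρ • h₀` (and `∑ (-1)^l choose k l = 0`, `k ≥ 1`), for
small `ρ` the sum is at most `∑ choose k l * M * (lρ)^k ≤ 2^k * |M| * k^k * ρ^k`.
(3) `C = closure Q` is a nonempty complete metric space covered by the closed sets `Z m`
(`nonempty_interior_of_iUnion_of_closed` on the subtype `C`), `Q` is dense in it: there are `m`, `x ∈ Q`, `r > 0`
with `ball x r ∩ closure Q ⊆ Z m`.
(4) Let `s > 0`, `m'` be with `ball h₀ s ⊆ H x m'` (by (1)). By the property of `Q` there is `V` with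
`0 < ‖V‖ < δ` (`δ` small, chosen at the end), `x + V ∈ Q` and `e x * ‖V‖^p ≤ f (x+V) - f x - P x V`. Put
`ρ = 2 * ‖V‖ / s`. As `x + V ∈ Z m`: `|∑ l (-1)^l choose k l f (x + V + (lρ) • h₀)| ≤ (m+1) ρ^k`. For `l ≥ 1`,
`V + (lρ) • h₀ = (lρ) • (h₀ + (1/(lρ)) • V)` and `‖(1/(lρ)) • V‖ ≤ s/2 < s`, so
`|f (x + V + (lρ) • h₀) - f x - P x (V + (lρ) • h₀)| ≤ (m'+1) * (lρ)^k` (if `kρ ≤ 1/(m'+1)`). With `hPd x`
(`w = ρ • h₀`) and `∑_{l ≤ k} (-1)^l choose k l = 0` the sum over `l` equals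
`f (x+V) - f x - P x V` up to `2^k (m'+1) k^k ρ^k`. So
`e x * ‖V‖^p ≤ f (x+V) - f x - P x V ≤ K * ‖V‖^k` with `K` depending only on `m, m', k, s`; for `‖V‖ → 0` this
contradicts `p < k`.
-/

set_option autoImplicit false

open scoped BigOperators Topology

namespace GS

variable {X : Type*} [NormedAddCommGroup X] [NormedSpace ℝ X]

theorem baire_countable (G : Set X) (hG : G.Nonempty) (R : X → X → ℝ → Prop)
    (hch : ∀ x ∈ G, ∃ e > 0, ∀ δ > 0, ∃ V : X, 0 < ‖V‖ ∧ ‖V‖ < δ ∧ x + V ∈ G ∧ R x V e) :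
    ∃ Q : Set X, Q.Nonempty ∧ Q.Countable ∧ Q ⊆ G ∧
      ∀ x ∈ Q, ∃ e > 0, ∀ δ > 0, ∃ V : X, 0 < ‖V‖ ∧ ‖V‖ < δ ∧ x + V ∈ Q ∧ R x V e := by
  obtain ⟨x₀, hx₀⟩ := hG
  have h1 : ∀ x : G, ∃ e > 0, ∀ δ > 0, ∃ V : X, 0 < ‖V‖ ∧ ‖V‖ < δ ∧ (x : X) + V ∈ G ∧ R x V e :=
    fun x => hch x x.2
  choose e he hV using h1
  have h2 : ∀ (x : G) (i : ℕ), ∃ V : X, 0 < ‖V‖ ∧ ‖V‖ < 1 / ((i : ℝ) + 1) ∧ (x : X) + V ∈ G ∧
      R x V (e x) := fun x i => hV x _ Nat.one_div_pos_of_nat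
  choose V hV0 hV1 hVG hVR using h2
  let F : List ℕ → G := fun l => List.rec (motive := fun _ => G) ⟨x₀, hx₀⟩
    (fun i _ y => ⟨(y : X) + V y i, hVG y i⟩) l
  have hF : ∀ (i : ℕ) (l : List ℕ), ((F (i :: l) : G) : X) = (F l : X) + V (F l) i := fun i l => rfl
  refine ⟨Set.range fun l => ((F l : G) : X), ⟨_, ⟨[], rfl⟩⟩, Set.countable_range _, ?_, ?_⟩
  · rintro _ ⟨l, rfl⟩
    exact (F l).2
  · rintro _ ⟨l, rfl⟩
    refine ⟨e (F l), he (F l), fun δ hδ => ?_⟩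
    obtain ⟨i, hi⟩ := exists_nat_one_div_lt hδ
    exact ⟨V (F l) i, hV0 _ _, (hV1 _ _).trans hi, ⟨i :: l, hF i l⟩, hVR _ _⟩

theorem BAI_alt (k : ℕ) (hk : 1 ≤ k) :
    ∑ l ∈ Finset.range (k + 1), (-1 : ℝ) ^ l * (k.choose l : ℝ) = 0 := by
  have := Int.alternating_sum_range_choose_of_ne (n := k) (by omega)
  exact_mod_cast this

theorem BAI_sum (k : ℕ) (hk : 1 ≤ k) (F Pl : ℕ → ℝ) (c : ℝ)
    (hP : ∑ l ∈ Finset.range (k + 1), (-1 : ℝ) ^ l * (k.choose l : ℝ) * Pl l = 0) :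
    ∑ l ∈ Finset.range (k + 1), (-1 : ℝ) ^ l * (k.choose l : ℝ) * (F l - c - Pl l)
      = ∑ l ∈ Finset.range (k + 1), (-1 : ℝ) ^ l * (k.choose l : ℝ) * F l := by
  have h1 : ∑ l ∈ Finset.range (k + 1), (-1 : ℝ) ^ l * (k.choose l : ℝ) * (F l - c - Pl l)
      = (∑ l ∈ Finset.range (k + 1), (-1 : ℝ) ^ l * (k.choose l : ℝ) * F l)
        - (∑ l ∈ Finset.range (k + 1), (-1 : ℝ) ^ l * (k.choose l : ℝ)) * c
        - ∑ l ∈ Finset.range (k + 1), (-1 : ℝ) ^ l * (k.choose l : ℝ) * Pl l := by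
    rw [Finset.sum_mul, ← Finset.sum_sub_distrib, ← Finset.sum_sub_distrib]
    exact Finset.sum_congr rfl fun l _ => by ring
  rw [h1, hP, BAI_alt k hk]
  ring

theorem BAI_bound (k : ℕ) (A : ℕ → ℝ) (M : ℝ) (hA : ∀ l ≤ k, |A l| ≤ M) :
    |∑ l ∈ Finset.range (k + 1), (-1 : ℝ) ^ l * (k.choose l : ℝ) * A l| ≤ 2 ^ k * M := by
  have h2 : (∑ l ∈ Finset.range (k + 1), (k.choose l : ℝ)) = 2 ^ k := by
    exact_mod_cast Nat.sum_range_choose k
  calc _ ≤ ∑ l ∈ Finset.range (k + 1), |(-1 : ℝ) ^ l * (k.choose l : ℝ) * A l| :=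
        Finset.abs_sum_le_sum_abs _ _
    _ ≤ ∑ l ∈ Finset.range (k + 1), (k.choose l : ℝ) * M := by
        apply Finset.sum_le_sum
        intro l hl
        have hl' : l ≤ k := by
          have := Finset.mem_range.mp hl
          omega
        rw [abs_mul, abs_mul, abs_pow, abs_neg, abs_one, one_pow, one_mul, Nat.abs_cast]
        exact mul_le_mul_of_nonneg_left (hA l hl') (Nat.cast_nonneg _)
    _ = 2 ^ k * M := by rw [← Finset.sum_mul, h2]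

/-- the term `l = 0` from the alternating sum and the other terms -/
theorem BAI_zero (k : ℕ) (A : ℕ → ℝ) (M S : ℝ) (hM : 0 ≤ M) (hA : ∀ l, 1 ≤ l → l ≤ k → |A l| ≤ M)
    (hS : |∑ l ∈ Finset.range (k + 1), (-1 : ℝ) ^ l * (k.choose l : ℝ) * A l| ≤ S) :
    |A 0| ≤ S + 2 ^ k * M := by
  have h1 : ∑ l ∈ Finset.range (k + 1), (-1 : ℝ) ^ l * (k.choose l : ℝ) * A l
      = A 0 + ∑ l ∈ Finset.range (k + 1), (-1 : ℝ) ^ l * (k.choose l : ℝ)
        * (if l = 0 then 0 else A l) := by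
    rw [Finset.sum_range_succ', Finset.sum_range_succ']
    simp [add_comm]
  have h2 := BAI_bound k (fun l => if l = 0 then 0 else A l) M (by
    intro l hl
    by_cases h : l = 0
    · simp [h, hM]
    · simp only [h, if_false]
      exact hA l (by omega) hl)
  rw [h1] at hS
  have h3 : A 0 = (A 0 + ∑ l ∈ Finset.range (k + 1), (-1 : ℝ) ^ l * (k.choose l : ℝ)
        * (if l = 0 then 0 else A l)) - ∑ l ∈ Finset.range (k + 1), (-1 : ℝ) ^ l * (k.choose l : ℝ)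
        * (if l = 0 then 0 else A l) := by ring
  rw [h3]
  exact (abs_sub _ _).trans (add_le_add hS h2)

theorem BAI_pow {p e K : ℝ} {k : ℕ} (hpk : p < k) (he : 0 < e) (hK : 0 < K) :
    ∃ δ > (0 : ℝ), ∀ v : ℝ, 0 < v → v < δ → K * v ^ k < e * v ^ p := by
  have hq : 0 < (k : ℝ) - p := by linarith
  refine ⟨(e / K) ^ (((k : ℝ) - p)⁻¹), by positivity, fun v hv hvδ => ?_⟩
  have h1 : v ^ ((k : ℝ) - p) < e / K := by
    have := Real.rpow_lt_rpow hv.le hvδ hq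
    rwa [Real.rpow_inv_rpow (by positivity) hq.ne'] at this
  have h2 : v ^ k = v ^ p * v ^ ((k : ℝ) - p) := by
    rw [← Real.rpow_add hv, ← Real.rpow_natCast]
    congr 1
    ring
  have h3 : 0 < v ^ p := Real.rpow_pos_of_pos hv p
  rw [lt_div_iff₀ hK] at h1
  rw [h2]
  nlinarith

theorem baire_main [CompleteSpace X] (f : X → ℝ) (hf : Continuous f) (k : ℕ) (hk : 1 ≤ k) (p : ℝ)
    (hp : 0 < p) (hpk : p < k) (P : X → X → ℝ) (U : Set X)
    (hPc : ∀ x ∈ U, Continuous (P x))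
    (hPd : ∀ x ∈ U, ∀ V w : X,
      ∑ l ∈ Finset.range (k + 1), (-1 : ℝ) ^ l * (k.choose l : ℝ) * P x (V + (l : ℝ) • w) = 0)
    (hT : ∀ x ∈ U, ∀ h : X, ∃ δ > 0, ∃ C : ℝ, ∀ t : ℝ, |t| ≤ δ →
      |f (x + t • h) - f x - P x (t • h)| ≤ C * |t| ^ k)
    (G : Set X) (hG : G.Nonempty) (hGU : closure G ⊆ U)
    (hch : ∀ x ∈ G, ∃ e > 0, ∀ δ > 0, ∃ V : X, 0 < ‖V‖ ∧ ‖V‖ < δ ∧ x + V ∈ G ∧
      e * ‖V‖ ^ p ≤ f (x + V) - f x - P x V) : False := by
  obtain ⟨Q, hQn, hQc, hQG, hQch⟩ := baire_countable G hG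
    (fun x V e => e * ‖V‖ ^ p ≤ f (x + V) - f x - P x V) hch
  have hcU : closure Q ⊆ U := (closure_mono hQG).trans hGU
  have hQU : Q ⊆ U := subset_closure.trans hcU
  -- (1)
  let H : X → ℕ → Set X := fun x m => {h | ∀ t : ℝ, |t| ≤ 1 / ((m : ℝ) + 1) →
    |f (x + t • h) - f x - P x (t • h)| ≤ ((m : ℝ) + 1) * |t| ^ k}
  have hHc : ∀ x ∈ U, ∀ m, IsClosed (H x m) := by
    intro x hx m
    have e1 : H x m = ⋂ t : ℝ, ⋂ _ : |t| ≤ 1 / ((m : ℝ) + 1),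
        {h | |f (x + t • h) - f x - P x (t • h)| ≤ ((m : ℝ) + 1) * |t| ^ k} := by
      ext h; simp [H]
    rw [e1]
    refine isClosed_iInter fun t => isClosed_iInter fun _ => ?_
    have hc := hPc x hx
    exact isClosed_le (by fun_prop) continuous_const
  have hHu : ∀ x ∈ U, ⋃ m, H x m = Set.univ := by
    intro x hx
    rw [Set.eq_univ_iff_forall]
    intro h
    obtain ⟨δ, hδ, C, hC⟩ := hT x hx h
    obtain ⟨m1, hm1⟩ := exists_nat_one_div_lt hδ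
    obtain ⟨m2, hm2⟩ := exists_nat_ge C
    refine Set.mem_iUnion.mpr ⟨max m1 m2, fun t ht => ?_⟩
    have k1 : (1 : ℝ) / (((max m1 m2 : ℕ) : ℝ) + 1) ≤ 1 / ((m1 : ℝ) + 1) := by
      apply one_div_le_one_div_of_le (by positivity)
      have : (m1 : ℝ) ≤ ((max m1 m2 : ℕ) : ℝ) := by exact_mod_cast le_max_left _ _
      linarith
    have k2 : C ≤ ((max m1 m2 : ℕ) : ℝ) + 1 := by
      have : (m2 : ℝ) ≤ ((max m1 m2 : ℕ) : ℝ) := by exact_mod_cast le_max_right _ _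
      linarith
    refine (hC t ((ht.trans k1).trans hm1.le)).trans ?_
    exact mul_le_mul_of_nonneg_right k2 (by positivity)
  have hdense : Dense (⋂ x ∈ Q, ⋃ m, interior (H x m)) :=
    dense_biInter_of_isOpen (fun x _ => isOpen_iUnion fun m => isOpen_interior) hQc
      (fun x hx => dense_iUnion_interior_of_closed (hHc x (hQU hx)) (hHu x (hQU hx)))
  obtain ⟨h₀, hh₀⟩ := hdense.nonempty
  have hball : ∀ x ∈ Q, ∃ m : ℕ, ∃ s > (0 : ℝ), Metric.ball h₀ s ⊆ H x m := by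
    intro x hx
    have h1 := Set.mem_iInter₂.mp hh₀ x hx
    obtain ⟨m, hm⟩ := Set.mem_iUnion.mp h1
    obtain ⟨s, hs, hsub⟩ := Metric.mem_nhds_iff.mp (mem_interior_iff_mem_nhds.mp hm)
    exact ⟨m, s, hs, hsub⟩
  -- (2)
  let Z : ℕ → Set X := fun m => {y | ∀ ρ : ℝ, 0 ≤ ρ → ρ ≤ 1 / ((m : ℝ) + 1) →
    |∑ l ∈ Finset.range (k + 1), (-1 : ℝ) ^ l * (k.choose l : ℝ) * f (y + ((l : ℝ) * ρ) • h₀)|
      ≤ ((m : ℝ) + 1) * ρ ^ k}
  have hZc : ∀ m, IsClosed (Z m) := by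
    intro m
    have e1 : Z m = ⋂ ρ : ℝ, ⋂ _ : 0 ≤ ρ, ⋂ _ : ρ ≤ 1 / ((m : ℝ) + 1),
        {y | |∑ l ∈ Finset.range (k + 1), (-1 : ℝ) ^ l * (k.choose l : ℝ)
          * f (y + ((l : ℝ) * ρ) • h₀)| ≤ ((m : ℝ) + 1) * ρ ^ k} := by
      ext h; simp [Z]
    rw [e1]
    refine isClosed_iInter fun t => isClosed_iInter fun _ => isClosed_iInter fun _ => ?_
    exact isClosed_le (by fun_prop) continuous_const
  have hkr : (1 : ℝ) ≤ k := by exact_mod_cast hk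
  have hZu : ∀ y ∈ U, ∃ m, y ∈ Z m := by
    intro y hy
    obtain ⟨δ, hδ, C, hC⟩ := hT y hy h₀
    obtain ⟨m1, hm1⟩ := exists_nat_one_div_lt (show (0 : ℝ) < δ / k by positivity)
    obtain ⟨m2, hm2⟩ := exists_nat_ge (2 ^ k * (|C| * (k : ℝ) ^ k))
    refine ⟨max m1 m2, fun ρ hρ0 hρ => ?_⟩
    have k1 : (1 : ℝ) / (((max m1 m2 : ℕ) : ℝ) + 1) ≤ 1 / ((m1 : ℝ) + 1) := by
      apply one_div_le_one_div_of_le (by positivity)
      have : (m1 : ℝ) ≤ ((max m1 m2 : ℕ) : ℝ) := by exact_mod_cast le_max_left _ _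
      linarith
    have k2 : 2 ^ k * (|C| * (k : ℝ) ^ k) ≤ ((max m1 m2 : ℕ) : ℝ) + 1 := by
      have : (m2 : ℝ) ≤ ((max m1 m2 : ℕ) : ℝ) := by exact_mod_cast le_max_right _ _
      linarith
    have k3 : (k : ℝ) * ρ ≤ δ := by
      have : ρ ≤ δ / k := (hρ.trans k1).trans hm1.le
      rw [le_div_iff₀ (by positivity)] at this
      linarith
    have hd := hPd y hy 0 (ρ • h₀)
    have hs := BAI_sum k hk (fun l => f (y + ((l : ℝ) * ρ) • h₀))
      (fun l => P y (0 + (l : ℝ) • (ρ • h₀))) (f y) hd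
    rw [← hs]
    have hb := BAI_bound k (fun l => f (y + ((l : ℝ) * ρ) • h₀) - f y
      - P y (0 + (l : ℝ) • (ρ • h₀))) (|C| * ((k : ℝ) ^ k * ρ ^ k)) (by
        intro l hl
        have hl' : (l : ℝ) ≤ k := by exact_mod_cast hl
        have hl0 : (0 : ℝ) ≤ l := Nat.cast_nonneg _
        have e1 : (0 : X) + (l : ℝ) • (ρ • h₀) = ((l : ℝ) * ρ) • h₀ := by
          rw [zero_add, smul_smul]
        simp only [e1]
        have e2 : |(l : ℝ) * ρ| = l * ρ := abs_of_nonneg (by positivity)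
        have e3 : (l : ℝ) * ρ ≤ k * ρ := mul_le_mul_of_nonneg_right hl' hρ0
        refine (hC ((l : ℝ) * ρ) (by rw [e2]; linarith)).trans ?_
        rw [e2, ← mul_pow]
        have e4 : ((l : ℝ) * ρ) ^ k ≤ (k * ρ) ^ k := pow_le_pow_left₀ (by positivity) e3 k
        calc C * ((l : ℝ) * ρ) ^ k ≤ |C| * ((l : ℝ) * ρ) ^ k :=
              mul_le_mul_of_nonneg_right (le_abs_self C) (by positivity)
          _ ≤ |C| * (k * ρ) ^ k := mul_le_mul_of_nonneg_left e4 (abs_nonneg _))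
    refine hb.trans ?_
    calc 2 ^ k * (|C| * ((k : ℝ) ^ k * ρ ^ k)) = 2 ^ k * (|C| * (k : ℝ) ^ k) * ρ ^ k := by ring
      _ ≤ _ := mul_le_mul_of_nonneg_right k2 (by positivity)
  -- (3)
  have h3 : ∃ m, ∃ x ∈ Q, ∃ r > (0 : ℝ), Metric.ball x r ∩ Q ⊆ Z m := by
    have : Nonempty (closure Q) := by
      obtain ⟨q, hq⟩ := hQn
      exact ⟨⟨q, subset_closure hq⟩⟩
    have : CompleteSpace (closure Q) := isClosed_closure.completeSpace_coe
    obtain ⟨m, y, hy⟩ := nonempty_interior_of_iUnion_of_closed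
      (f := fun m => (Subtype.val ⁻¹' (Z m) : Set (closure Q)))
      (fun m => (hZc m).preimage continuous_subtype_val) (by
        rw [Set.eq_univ_iff_forall]
        intro y
        obtain ⟨m, hm⟩ := hZu y (hcU y.2)
        exact Set.mem_iUnion.mpr ⟨m, hm⟩)
    obtain ⟨ε, hε, hsub⟩ := Metric.mem_nhds_iff.mp (mem_interior_iff_mem_nhds.mp hy)
    obtain ⟨x, hxQ, hxy⟩ := Metric.mem_closure_iff.mp y.2 (ε / 2) (by positivity)
    refine ⟨m, x, hxQ, ε / 2, by positivity, ?_⟩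
    rintro z ⟨hz, hzQ⟩
    have hz' : (⟨z, subset_closure hzQ⟩ : closure Q) ∈ Metric.ball y ε := by
      rw [Metric.mem_ball, Subtype.dist_eq]
      rw [Metric.mem_ball] at hz
      calc dist z (y : X) ≤ dist z x + dist x y := dist_triangle _ _ _
        _ < ε := by rw [dist_comm x]; linarith
    exact hsub hz'
  -- (4)
  obtain ⟨m, x, hxQ, r, hr, hZ⟩ := h3
  obtain ⟨m', s, hs, hH⟩ := hball x hxQ
  obtain ⟨e, he, hV⟩ := hQch x hxQ
  set K : ℝ := (((m : ℝ) + 1) + 2 ^ k * (((m' : ℝ) + 1) * (k : ℝ) ^ k)) * (2 / s) ^ k with hK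
  have hK0 : 0 < K := by positivity
  obtain ⟨δ₀, hδ₀, hpow⟩ := BAI_pow hpk he hK0
  have hx : x ∈ U := hQU hxQ
  obtain ⟨V, hV0, hVδ, hVQ, hVe⟩ := hV (min (min δ₀ r) (min (s / (2 * ((m : ℝ) + 1)))
    (s / (2 * k * ((m' : ℝ) + 1))))) (by positivity)
  have b1 : ‖V‖ < δ₀ := hVδ.trans_le ((min_le_left _ _).trans (min_le_left _ _))
  have b2 : ‖V‖ < r := hVδ.trans_le ((min_le_left _ _).trans (min_le_right _ _))
  have b3 : ‖V‖ < s / (2 * ((m : ℝ) + 1)) :=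
    hVδ.trans_le ((min_le_right _ _).trans (min_le_left _ _))
  have b4 : ‖V‖ < s / (2 * k * ((m' : ℝ) + 1)) :=
    hVδ.trans_le ((min_le_right _ _).trans (min_le_right _ _))
  set ρ : ℝ := 2 * ‖V‖ / s with hρ
  have hρ0 : 0 < ρ := by positivity
  have hρ1 : ρ ≤ 1 / ((m : ℝ) + 1) := by
    rw [lt_div_iff₀ (by positivity)] at b3
    rw [hρ, div_le_div_iff₀ hs (by positivity)]
    linarith
  have hρ2 : (k : ℝ) * ρ ≤ 1 / ((m' : ℝ) + 1) := by
    rw [lt_div_iff₀ (by positivity)] at b4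
    rw [hρ, ← mul_div_assoc, div_le_div_iff₀ hs (by positivity)]
    linarith
  have hVZ : x + V ∈ Z m := by
    apply hZ
    refine ⟨?_, hVQ⟩
    rw [Metric.mem_ball, dist_eq_norm, add_sub_cancel_left]
    exact b2
  have hz := hVZ ρ hρ0.le hρ1
  have hd := hPd x hx V (ρ • h₀)
  have hss := BAI_sum k hk (fun l => f (x + V + ((l : ℝ) * ρ) • h₀))
    (fun l => P x (V + (l : ℝ) • (ρ • h₀))) (f x) hd
  rw [← hss] at hz
  have hfin := BAI_zero k (fun l => f (x + V + ((l : ℝ) * ρ) • h₀) - f x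
    - P x (V + (l : ℝ) • (ρ • h₀))) (((m' : ℝ) + 1) * (k : ℝ) ^ k * ρ ^ k)
    (((m : ℝ) + 1) * ρ ^ k) (by positivity) (by
      intro l hl1 hl
      have hl' : (l : ℝ) ≤ k := by exact_mod_cast hl
      have hl1' : (1 : ℝ) ≤ l := by exact_mod_cast hl1
      have hl0 : (0 : ℝ) < l := by linarith
      have e0 : (l : ℝ) * ρ ≠ 0 := by positivity
      have e1 : V + (l : ℝ) • (ρ • h₀) = ((l : ℝ) * ρ) • (h₀ + ((l : ℝ) * ρ)⁻¹ • V) := by
        rw [smul_add, smul_smul, smul_smul, mul_inv_cancel₀ e0, one_smul, add_comm]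
      have e2 : x + V + ((l : ℝ) * ρ) • h₀ = x + ((l : ℝ) * ρ) • (h₀ + ((l : ℝ) * ρ)⁻¹ • V) := by
        rw [← e1, smul_smul, add_assoc]
      simp only [e1, e2]
      have hmem : h₀ + ((l : ℝ) * ρ)⁻¹ • V ∈ Metric.ball h₀ s := by
        rw [Metric.mem_ball, dist_eq_norm, add_sub_cancel_left, norm_smul, norm_inv,
          Real.norm_eq_abs, abs_of_pos (by positivity), inv_mul_lt_iff₀ (by positivity)]
        have : ρ * s = 2 * ‖V‖ := by rw [hρ]; field_simp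
        nlinarith
      have e3 : |(l : ℝ) * ρ| = l * ρ := abs_of_nonneg (by positivity)
      have e4 : (l : ℝ) * ρ ≤ k * ρ := mul_le_mul_of_nonneg_right hl' hρ0.le
      have h5 := hH hmem ((l : ℝ) * ρ) (by rw [e3]; linarith)
      refine h5.trans ?_
      rw [e3, mul_assoc, ← mul_pow]
      exact mul_le_mul_of_nonneg_left (pow_le_pow_left₀ (by positivity) e4 k) (by positivity)) hz
  simp only [Nat.cast_zero, zero_mul, zero_smul, add_zero] at hfin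
  have h6 := hpow ‖V‖ hV0 b1
  have h7 : f (x + V) - f x - P x V ≤ K * ‖V‖ ^ k := by
    refine (le_abs_self _).trans (hfin.trans (le_of_eq ?_))
    rw [hK, hρ]
    have : (2 * ‖V‖ / s) ^ k = (2 / s) ^ k * ‖V‖ ^ k := by
      rw [← mul_pow]; congr 1; ring
    rw [this]
    ring
  linarith

end GS
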