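import Pool.Agent.H53.GS.Defs

/-!
# Basic facts on block sequences (used by most modules)
-/

set_option autoImplicit false

open scoped BigOperators Topology

namespace GS

variable {X : Type*} [NormedAddCommGroup X] [NormedSpace ℝ X]

theorem mem_st_iff {g : ℕ → X} {N : ℕ} {u : X} :
    u ∈ st g N ↔ ∃ (F : Finset ℕ) (b : ℕ → ℝ), (∀ k ∈ F, N ≤ k) ∧ u = ∑ k ∈ F, b k • g k := by
  constructor
  · intro hu
    induction hu using Submodule.span_induction with
    | mem x hx =>
      obtain ⟨k, hk, rfl⟩ := hx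
      refine ⟨{k}, fun _ => 1, ?_, ?_⟩
      · intro j hj
        rw [Finset.mem_singleton] at hj
        rw [hj]
        exact hk
      · rw [Finset.sum_singleton, one_smul]
    | zero => exact ⟨∅, fun _ => 0, by simp, by simp⟩
    | add x y _ _ hx hy =>
      obtain ⟨F, b, hF, rfl⟩ := hx
      obtain ⟨F', b', hF', rfl⟩ := hy
      classical
      refine ⟨F ∪ F', fun k => (if k ∈ F then b k else 0) + (if k ∈ F' then b' k else 0), ?_, ?_⟩
      · intro k hk
        rcases Finset.mem_union.mp hk with h | h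
        · exact hF k h
        · exact hF' k h
      · simp only [add_smul, Finset.sum_add_distrib, ite_smul, zero_smul]
        congr 1
        · rw [Finset.sum_ite_mem, Finset.union_inter_cancel_left]
        · rw [Finset.sum_ite_mem, Finset.union_inter_cancel_right]
    | smul a x _ hx =>
      obtain ⟨F, b, hF, rfl⟩ := hx
      refine ⟨F, fun k => a * b k, hF, ?_⟩
      rw [Finset.smul_sum]
      exact Finset.sum_congr rfl fun k _ => by rw [mul_smul]
  · rintro ⟨F, b, hF, rfl⟩
    exact Submodule.sum_mem _ fun k hk =>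
      Submodule.smul_mem _ _ (Submodule.subset_span ⟨k, hF k hk, rfl⟩)

/-- every element of `st g N` is supported on finitely many blocks -/
theorem st_bdd {g : ℕ → X} {N : ℕ} {u : X} (hu : u ∈ st g N) :
    ∃ n, N ≤ n ∧ u ∈ Submodule.span ℝ (g '' Set.Ico N n) := by
  obtain ⟨F, b, hF, rfl⟩ := mem_st_iff.mp hu
  refine ⟨max N (F.sup id + 1), le_max_left _ _, ?_⟩
  refine Submodule.sum_mem _ fun k hk => Submodule.smul_mem _ _ (Submodule.subset_span ⟨k, ?_, rfl⟩)
  refine ⟨hF k hk, lt_of_lt_of_le ?_ (le_max_right _ _)⟩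
  have : k ≤ F.sup id := Finset.le_sup (f := id) hk
  omega

theorem mem_span_Iio_iff {g : ℕ → X} {N : ℕ} {u : X} :
    u ∈ Submodule.span ℝ (g '' Set.Iio N) ↔
      ∃ b : ℕ → ℝ, u = ∑ k ∈ Finset.range N, b k • g k := by
  constructor
  · intro hu
    induction hu using Submodule.span_induction with
    | mem x hx =>
      obtain ⟨k, hk, rfl⟩ := hx
      refine ⟨fun j => if j = k then 1 else 0, ?_⟩
      have hk' : k ∈ Finset.range N := Finset.mem_range.mpr hk
      simp only [ite_smul, one_smul, zero_smul]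
      rw [Finset.sum_ite_eq' (Finset.range N) k, if_pos hk']
    | zero => exact ⟨fun _ => 0, by simp⟩
    | add x y _ _ hx hy =>
      obtain ⟨b, rfl⟩ := hx
      obtain ⟨b', rfl⟩ := hy
      exact ⟨fun k => b k + b' k, by simp only [add_smul, Finset.sum_add_distrib]⟩
    | smul a x _ hx =>
      obtain ⟨b, rfl⟩ := hx
      refine ⟨fun k => a * b k, ?_⟩
      rw [Finset.smul_sum]
      exact Finset.sum_congr rfl fun k _ => by rw [mul_smul]
  · rintro ⟨b, rfl⟩
    exact Submodule.sum_mem _ fun k hk =>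
      Submodule.smul_mem _ _ (Submodule.subset_span ⟨k, Finset.mem_range.mp hk, rfl⟩)

theorem blk_norm {p : ℝ} (hp : 0 < p) {g : ℕ → X} (hg : IsBlk p g) (n : ℕ) : ‖g n‖ = 1 := by
  have h := hg {n} (fun _ => 1)
  rw [Finset.sum_singleton, Finset.sum_singleton, one_smul, abs_one, Real.one_rpow] at h
  have h2 := congrArg (fun t : ℝ => t ^ p⁻¹) h
  simp only [Real.one_rpow] at h2
  rwa [Real.rpow_rpow_inv (norm_nonneg _) hp.ne'] at h2

/-- additivity of the `p`-th power of the norm -/
theorem blk_split {p : ℝ} (hp : 0 < p) {g : ℕ → X} (hg : IsBlk p g) {n : ℕ} {u w : X}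
    (hu : u ∈ Submodule.span ℝ (g '' Set.Iio n)) (hw : w ∈ closure (st g n : Set X)) :
    ‖u + w‖ ^ p = ‖u‖ ^ p + ‖w‖ ^ p := by
  have hc1 : Continuous fun w : X => ‖u + w‖ ^ p :=
    (continuous_const.add continuous_id).norm.rpow_const fun _ => Or.inr hp.le
  have hc2 : Continuous fun w : X => ‖u‖ ^ p + ‖w‖ ^ p :=
    continuous_const.add (continuous_norm.rpow_const fun _ => Or.inr hp.le)
  have hcl : IsClosed {w : X | ‖u + w‖ ^ p = ‖u‖ ^ p + ‖w‖ ^ p} := isClosed_eq hc1 hc2
  refine (closure_minimal ?_ hcl) hw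
  intro w hw
  obtain ⟨b, rfl⟩ := mem_span_Iio_iff.mp hu
  obtain ⟨F, c, hF, rfl⟩ := mem_st_iff.mp hw
  show ‖_ + _‖ ^ p = _ + _
  have hdisj : Disjoint (Finset.range n) F := by
    rw [Finset.disjoint_left]
    intro k hk hk'
    have h1 := Finset.mem_range.mp hk
    have h2 := hF k hk'
    omega
  have e : (∑ k ∈ Finset.range n, b k • g k) + ∑ k ∈ F, c k • g k
      = ∑ k ∈ Finset.range n ∪ F, (if k < n then b k else c k) • g k := by
    rw [Finset.sum_union hdisj]
    congr 1
    · refine Finset.sum_congr rfl fun k hk => ?_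
      rw [if_pos (Finset.mem_range.mp hk)]
    · refine Finset.sum_congr rfl fun k hk => ?_
      rw [if_neg (by have := hF k hk; omega)]
  rw [e, hg, hg, hg, Finset.sum_union hdisj]
  congr 1
  · refine Finset.sum_congr rfl fun k hk => ?_
    rw [if_pos (Finset.mem_range.mp hk)]
  · refine Finset.sum_congr rfl fun k hk => ?_
    rw [if_neg (by have := hF k hk; omega)]

end GS
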