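import Pool.Agent.H53.GS.Blk

/-!
# Module CHA: the greedy chain

Proof. A state is a pair `(w, n)` with `n ≥ N`, `w ∈ st g N`, `w ∈ span (g '' Iio n)` (in fact
`w ∈ span (g '' Ico N n)`) and `‖w‖ ≤ R`. Let `A (w, n)` be the set of pairs `(u, n')` with `n' ≥ n`,
`u ∈ span (g '' Ico n n')`, `‖w + u‖ ≤ R` and `f (x + w + u) ≤ f (x + w) + ε ‖u‖^p`, and
`S (w, n) = sup {‖u‖^p : (u, n') ∈ A (w, n)}`; it is bounded by `R^p` (`blk_split`: `‖w + u‖^p = ‖w‖^p + ‖u‖^p`)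
and `(0, n)` is in `A (w, n)`. Start with `(0, N)` and choose `(u_i, n_{i+1}) ∈ A (w_i, n_i)`, `n_{i+1} > n_i`,
with `‖u_i‖^p ≥ S (w_i, n_i) / 2`, `w_{i+1} = w_i + u_i`. By `blk_split`, for `i ≤ j`:
`‖w_j‖^p = ‖w_i‖^p + ‖w_j - w_i‖^p` and `‖w_j - w_i‖^p = ∑_{i ≤ l < j} ‖u_l‖^p`, so `‖w_i‖^p` is increasing and
bounded by `R^p`, `(w_i)` is a Cauchy sequence with limit `w`, `‖w‖ ≤ R`, `u_i → 0`, `S (w_i, n_i) → 0`, and
`f (x + w_i) ≤ f x + ε ‖w_i‖^p`, hence `f (x + w) ≤ f x + ε ‖w‖^p`.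
`Good`: let `η > 0`, `‖w‖^p + R'^p ≤ R^p`. Take `i` with `2 L ‖w - w_i‖ ≤ η` and
`L a + ε a^p ≤ η` for all `0 ≤ a` with `a^p ≤ S (w_i, n_i)`, and `M = n_i`. Let `u ∈ st g M`, `‖u‖ ≤ R'`.
If `‖u‖^p ≤ S (w_i, n_i)` then `f (x+w+u) ≥ f (x+w) - L ‖u‖ ≥ f (x+w) + ε ‖u‖^p - η`. Otherwise
`‖w_i + u‖^p = ‖w_i‖^p + ‖u‖^p ≤ R^p` and `u ∈ span (g '' Ico n_i n')` for some `n'` (`st_bdd`), so `(u, n')` is
not in `A (w_i, n_i)`: `f (x + w_i + u) > f (x + w_i) + ε ‖u‖^p`, and the Lipschitz condition (twice) gives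
`f (x+w+u) ≥ f (x+w) + ε ‖u‖^p - 2 L ‖w - w_i‖`.
-/

set_option autoImplicit false

open scoped BigOperators Topology

namespace GS

variable {X : Type*} [NormedAddCommGroup X] [NormedSpace ℝ X]

theorem CHA_rpow_lt {p a b : ℝ} (hp : 1 ≤ p) (hb : 0 ≤ b) (h : a ^ p < b ^ p) : a < b := by
  by_contra hcon
  push Not at hcon
  exact absurd (Real.rpow_le_rpow hb hcon (by linarith)) (not_le.mpr h)

theorem CHA_rpow_le {p a b : ℝ} (hp : 1 ≤ p) (ha : 0 ≤ a) (hb : 0 ≤ b) (h : a ^ p ≤ b ^ p) :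
    a ≤ b := by
  by_contra hcon
  push Not at hcon
  exact absurd (Real.rpow_lt_rpow hb hcon (by linarith)) (not_lt.mpr h)

/-- The set of `p`-th powers of norms of admissible steps. -/
def CHA_A (g : ℕ → X) (f : X → ℝ) (p ε R : ℝ) (x w : X) (n : ℕ) : Set ℝ :=
  {a | ∃ (u : X) (n' : ℕ), n ≤ n' ∧ u ∈ Submodule.span ℝ (g '' Set.Ico n n') ∧ ‖w + u‖ ≤ R ∧
    f (x + w + u) ≤ f (x + w) + ε * ‖u‖ ^ p ∧ a = ‖u‖ ^ p}

theorem CHA_span_le {g : ℕ → X} {a b c d : ℕ} (h1 : c ≤ a) (h2 : b ≤ d) :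
    Submodule.span ℝ (g '' Set.Ico a b) ≤ Submodule.span ℝ (g '' Set.Ico c d) :=
  Submodule.span_mono (Set.image_mono (Set.Ico_subset_Ico h1 h2))

theorem CHA_span_st {g : ℕ → X} {a b : ℕ} :
    Submodule.span ℝ (g '' Set.Ico a b) ≤ st g a :=
  Submodule.span_mono (Set.image_mono Set.Ico_subset_Ici_self)

theorem CHA_span_Iio {g : ℕ → X} {a b : ℕ} :
    Submodule.span ℝ (g '' Set.Ico a b) ≤ Submodule.span ℝ (g '' Set.Iio b) :=
  Submodule.span_mono (Set.image_mono Set.Ico_subset_Iio_self)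

theorem CHA_step {p : ℝ} (hp : 1 ≤ p) {g : ℕ → X} (hg : IsBlk p g) {f : X → ℝ} (x w : X)
    (N n : ℕ) {ε R : ℝ} (hw : w ∈ Submodule.span ℝ (g '' Set.Ico N n)) (hwR : ‖w‖ ≤ R) :
    ∃ (u : X) (n' : ℕ), n < n' ∧ u ∈ Submodule.span ℝ (g '' Set.Ico n n') ∧ ‖w + u‖ ≤ R ∧
      f (x + w + u) ≤ f (x + w) + ε * ‖u‖ ^ p ∧
      ∀ a ∈ CHA_A g f p ε R x w n, a ≤ 2 * ‖u‖ ^ p := by
  have hp0 : 0 < p := by linarith
  have hne : (0 : ℝ) ∈ CHA_A g f p ε R x w n := by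
    refine ⟨0, n, le_rfl, Submodule.zero_mem _, by simpa using hwR, ?_, ?_⟩
    · rw [norm_zero, Real.zero_rpow hp0.ne', add_zero, mul_zero, add_zero]
    · rw [norm_zero, Real.zero_rpow hp0.ne']
  have hbd : BddAbove (CHA_A g f p ε R x w n) := by
    refine ⟨R ^ p, ?_⟩
    rintro a ⟨u, n', hn, hu, huR, -, rfl⟩
    have h1 := blk_split hp0 hg (CHA_span_Iio hw) (subset_closure (CHA_span_st hu))
    have h2 : ‖w + u‖ ^ p ≤ R ^ p := Real.rpow_le_rpow (norm_nonneg _) huR hp0.le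
    have h3 : 0 ≤ ‖w‖ ^ p := Real.rpow_nonneg (norm_nonneg _) _
    linarith
  rcases le_or_gt (sSup (CHA_A g f p ε R x w n)) 0 with h0 | h0
  · refine ⟨0, n + 1, Nat.lt_succ_self n, Submodule.zero_mem _, by simpa using hwR, ?_, ?_⟩
    · rw [norm_zero, Real.zero_rpow hp0.ne', add_zero, mul_zero, add_zero]
    · intro a ha
      have := le_csSup hbd ha
      rw [norm_zero, Real.zero_rpow hp0.ne']
      linarith
  · obtain ⟨a, ha, hlt⟩ := exists_lt_of_lt_csSup ⟨0, hne⟩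
      (show sSup (CHA_A g f p ε R x w n) / 2 < sSup (CHA_A g f p ε R x w n) by linarith)
    obtain ⟨u, n', hn, hu, huR, hf, rfl⟩ := ha
    refine ⟨u, max n' (n + 1), lt_of_lt_of_le (Nat.lt_succ_self n) (le_max_right _ _),
      CHA_span_le le_rfl (le_max_left _ _) hu, huR, hf, ?_⟩
    intro b hb
    have := le_csSup hbd hb
    linarith

theorem chain [CompleteSpace X] {p : ℝ} (hp : 1 ≤ p) {g : ℕ → X} (hg : IsBlk p g) {f : X → ℝ}
    {L : ℝ} (hL0 : 0 ≤ L) (hL : ∀ x y, |f x - f y| ≤ L * ‖x - y‖) (x : X) (N : ℕ) {ε R : ℝ}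
    (hε : 0 < ε) (hR : 0 < R) :
    ∃ w : X, w ∈ closure (st g N : Set X) ∧ ‖w‖ ≤ R ∧ f (x + w) ≤ f x + ε * ‖w‖ ^ p ∧
      ∀ R' : ℝ, 0 < R' → ‖w‖ ^ p + R' ^ p ≤ R ^ p → Good f p g (x + w) ε R' := by
  classical
  have hp0 : 0 < p := by linarith
  -- states
  let I : X × ℕ → Prop := fun s => N ≤ s.2 ∧ s.1 ∈ Submodule.span ℝ (g '' Set.Ico N s.2) ∧ ‖s.1‖ ≤ R
  have step : ∀ s : {s : X × ℕ // I s}, ∃ s' : {s : X × ℕ // I s}, s.1.2 < s'.1.2 ∧
      s'.1.1 - s.1.1 ∈ Submodule.span ℝ (g '' Set.Ico s.1.2 s'.1.2) ∧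
      f (x + s'.1.1) ≤ f (x + s.1.1) + ε * ‖s'.1.1 - s.1.1‖ ^ p ∧
      ∀ a ∈ CHA_A g f p ε R x s.1.1 s.1.2, a ≤ 2 * ‖s'.1.1 - s.1.1‖ ^ p := by
    rintro ⟨⟨w, n⟩, hn, hw, hwR⟩
    obtain ⟨u, n', hnn, hu, huR, hf, hmax⟩ := CHA_step (f := f) (ε := ε) hp hg x w N n hw hwR
    refine ⟨⟨(w + u, n'), ?_, ?_, huR⟩, hnn, ?_, ?_, ?_⟩
    · exact hn.trans hnn.le
    · exact Submodule.add_mem _ (CHA_span_le le_rfl hnn.le hw) (CHA_span_le hn le_rfl hu)
    · simpa using hu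
    · simpa [add_assoc] using hf
    · simpa using hmax
  choose nx hnx1 hnx2 hnx3 hnx4 using step
  have hI0 : I (0, N) := ⟨le_rfl, Submodule.zero_mem _, by simpa using hR.le⟩
  let sq : ℕ → {s : X × ℕ // I s} := fun i => nx^[i] ⟨(0, N), hI0⟩
  have hsq : ∀ i, sq (i + 1) = nx (sq i) := fun i => Function.iterate_succ_apply' nx i _
  let w : ℕ → X := fun i => (sq i).1.1
  let n : ℕ → ℕ := fun i => (sq i).1.2
  have hw0 : w 0 = 0 := rfl
  have hn0 : n 0 = N := rfl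
  have hn1 : ∀ i, n i < n (i + 1) := by
    intro i
    show (sq i).1.2 < (sq (i + 1)).1.2
    rw [hsq]
    exact hnx1 _
  have hu1 : ∀ i, w (i + 1) - w i ∈ Submodule.span ℝ (g '' Set.Ico (n i) (n (i + 1))) := by
    intro i
    show (sq (i + 1)).1.1 - (sq i).1.1 ∈ Submodule.span ℝ (g '' Set.Ico (sq i).1.2 (sq (i + 1)).1.2)
    rw [hsq]
    exact hnx2 _
  have hf1 : ∀ i, f (x + w (i + 1)) ≤ f (x + w i) + ε * ‖w (i + 1) - w i‖ ^ p := by
    intro i
    show f (x + (sq (i + 1)).1.1) ≤ f (x + (sq i).1.1) + ε * ‖(sq (i + 1)).1.1 - (sq i).1.1‖ ^ p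
    rw [hsq]
    exact hnx3 _
  have hmax : ∀ i, ∀ a ∈ CHA_A g f p ε R x (w i) (n i), a ≤ 2 * ‖w (i + 1) - w i‖ ^ p := by
    intro i
    show ∀ a ∈ CHA_A g f p ε R x (sq i).1.1 (sq i).1.2, a ≤ 2 * ‖(sq (i + 1)).1.1 - (sq i).1.1‖ ^ p
    rw [hsq]
    exact hnx4 _
  have hI : ∀ i, N ≤ n i ∧ w i ∈ Submodule.span ℝ (g '' Set.Ico N (n i)) ∧ ‖w i‖ ≤ R :=
    fun i => (sq i).2
  have hnmono : StrictMono n := strictMono_nat_of_lt_succ hn1
  have hdiff : ∀ i j, i ≤ j → w j - w i ∈ Submodule.span ℝ (g '' Set.Ico (n i) (n j)) := by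
    intro i j hij
    induction j, hij using Nat.le_induction with
    | base => rw [sub_self]; exact Submodule.zero_mem _
    | succ j hij ih =>
      have e : w (j + 1) - w i = (w j - w i) + (w (j + 1) - w j) := by abel
      rw [e]
      exact Submodule.add_mem _ (CHA_span_le le_rfl (hn1 j).le ih)
        (CHA_span_le (hnmono.monotone hij) le_rfl (hu1 j))
  have hpyth : ∀ i j, i ≤ j → ‖w j‖ ^ p = ‖w i‖ ^ p + ‖w j - w i‖ ^ p := by
    intro i j hij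
    have := blk_split hp0 hg (CHA_span_Iio (hI i).2.1)
      (subset_closure (CHA_span_st (hdiff i j hij)))
    rwa [add_sub_cancel] at this
  -- the norms converge
  have hamono : Monotone fun i => ‖w i‖ ^ p := by
    intro i j hij
    have h1 := hpyth i j hij
    have h2 : 0 ≤ ‖w j - w i‖ ^ p := Real.rpow_nonneg (norm_nonneg _) _
    show ‖w i‖ ^ p ≤ ‖w j‖ ^ p
    linarith
  have habd : BddAbove (Set.range fun i => ‖w i‖ ^ p) := by
    refine ⟨R ^ p, ?_⟩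
    rintro _ ⟨i, rfl⟩
    exact Real.rpow_le_rpow (norm_nonneg _) (hI i).2.2 hp0.le
  have hatend := tendsto_atTop_ciSup hamono habd
  have haC : CauchySeq fun i => ‖w i‖ ^ p := hatend.cauchySeq
  have hwC : CauchySeq w := by
    rw [Metric.cauchySeq_iff']
    intro η hη
    have hηp : 0 < η ^ p := Real.rpow_pos_of_pos hη _
    obtain ⟨I0, hI0'⟩ := Metric.cauchySeq_iff'.mp haC (η ^ p) hηp
    refine ⟨I0, fun j hj => ?_⟩
    have h1 := hI0' j hj
    rw [Real.dist_eq] at h1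
    rw [dist_eq_norm]
    apply CHA_rpow_lt hp hη.le
    have h2 := hpyth I0 j hj
    have h3 := le_abs_self (‖w j‖ ^ p - ‖w I0‖ ^ p)
    linarith
  obtain ⟨wl, hwl⟩ := cauchySeq_tendsto_of_complete hwC
  have hwR : ‖wl‖ ≤ R := le_of_tendsto' hwl.norm fun i => (hI i).2.2
  have hfc : Continuous f := by
    have : LipschitzWith (Real.toNNReal L) f :=
      LipschitzWith.of_dist_le_mul fun x y => by
        rw [Real.dist_eq, dist_eq_norm, Real.coe_toNNReal L hL0]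
        exact hL x y
    exact this.continuous
  have hpc : Continuous fun y : X => ‖y‖ ^ p := continuous_norm.rpow_const fun _ => Or.inr hp0.le
  have hfw : ∀ i, f (x + w i) ≤ f x + ε * ‖w i‖ ^ p := by
    intro i
    induction i with
    | zero => rw [hw0, norm_zero, Real.zero_rpow hp0.ne', add_zero, mul_zero, add_zero]
    | succ i ih =>
      have h1 := hf1 i
      have h2 := hpyth i (i + 1) (Nat.le_succ i)
      rw [h2]
      linarith
  have hfl : f (x + wl) ≤ f x + ε * ‖wl‖ ^ p := by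
    have h1 : Filter.Tendsto (fun i => f (x + w i)) Filter.atTop (𝓝 (f (x + wl))) :=
      (hfc.tendsto _).comp (tendsto_const_nhds.add hwl)
    have h2 : Filter.Tendsto (fun i => f x + ε * ‖w i‖ ^ p) Filter.atTop
        (𝓝 (f x + ε * ‖wl‖ ^ p)) :=
      tendsto_const_nhds.add (tendsto_const_nhds.mul ((hpc.tendsto _).comp hwl))
    exact le_of_tendsto_of_tendsto' h1 h2 hfw
  have hmem : wl ∈ closure (st g N : Set X) :=
    mem_closure_of_tendsto hwl (Filter.Eventually.of_forall fun i => CHA_span_st (hI i).2.1)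
  refine ⟨wl, hmem, hwR, hfl, ?_⟩
  intro R' hR' hRR' η hη
  -- the steps tend to zero
  have hstep0 : Filter.Tendsto (fun i => 2 * ‖w (i + 1) - w i‖ ^ p) Filter.atTop (𝓝 0) := by
    have h1 : Filter.Tendsto (fun i => w (i + 1) - w i) Filter.atTop (𝓝 (wl - wl)) :=
      (hwl.comp (Filter.tendsto_add_atTop_nat 1)).sub hwl
    rw [sub_self] at h1
    have h2 := (tendsto_const_nhds (x := (2 : ℝ))).mul ((hpc.tendsto _).comp h1)
    simpa [Real.zero_rpow hp0.ne'] using h2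
  -- a small radius
  obtain ⟨r, hr, hrη⟩ : ∃ r > 0, ∀ a : ℝ, 0 ≤ a → a ≤ r → L * a + ε * a ^ p ≤ η := by
    have hc : Continuous fun a : ℝ => L * a + ε * a ^ p :=
      (continuous_const.mul continuous_id).add
        (continuous_const.mul (continuous_id.rpow_const fun _ => Or.inr hp0.le))
    have h0 : Filter.Tendsto (fun a : ℝ => L * a + ε * a ^ p) (𝓝 0) (𝓝 0) := by
      have := hc.tendsto 0
      simpa [Real.zero_rpow hp0.ne'] using this
    obtain ⟨r, hr, h⟩ := Metric.eventually_nhds_iff.mp (h0.eventually (ge_mem_nhds hη))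
    refine ⟨r / 2, by linarith, fun a ha har => h ?_⟩
    rw [Real.dist_eq, sub_zero, abs_of_nonneg ha]
    linarith
  have hrp : 0 < r ^ p := Real.rpow_pos_of_pos hr _
  have hev1 := hstep0.eventually (gt_mem_nhds hrp)
  have hev2 : ∀ᶠ i in Filter.atTop, 2 * (L * ‖wl - w i‖) < η := by
    have h1 : Filter.Tendsto (fun i => 2 * (L * ‖wl - w i‖)) Filter.atTop (𝓝 (2 * (L * 0))) := by
      refine tendsto_const_nhds.mul (tendsto_const_nhds.mul ?_)
      have := (tendsto_const_nhds (x := wl)).sub hwl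
      rw [sub_self] at this
      simpa using this.norm
    rw [mul_zero, mul_zero] at h1
    exact h1.eventually (gt_mem_nhds hη)
  obtain ⟨i, hi1, hi2⟩ := (hev1.and hev2).exists
  refine ⟨n i, fun u hu huR => ?_⟩
  rcases le_or_gt (‖u‖ ^ p) (2 * ‖w (i + 1) - w i‖ ^ p) with hcase | hcase
  · have h1 : ‖u‖ ≤ r := by
      apply CHA_rpow_le hp (norm_nonneg _) hr.le
      linarith
    have h2 := hrη ‖u‖ (norm_nonneg _) h1
    have h3 := hL (x + wl + u) (x + wl)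
    have h4 : ‖x + wl + u - (x + wl)‖ = ‖u‖ := by
      congr 1
      abel
    rw [h4] at h3
    have h5 := neg_abs_le (f (x + wl + u) - f (x + wl))
    linarith
  · obtain ⟨n', hn', hu'⟩ := st_bdd hu
    have hwi : ‖w i‖ ^ p ≤ ‖wl‖ ^ p := by
      have h1 : Filter.Tendsto (fun j => ‖w j‖ ^ p) Filter.atTop (𝓝 (‖wl‖ ^ p)) :=
        (hpc.tendsto _).comp hwl
      exact ge_of_tendsto h1 (Filter.eventually_atTop.mpr ⟨i, fun j hj => hamono hj⟩)
    have hsum : ‖w i + u‖ ≤ R := by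
      apply CHA_rpow_le hp (norm_nonneg _) hR.le
      rw [blk_split hp0 hg (CHA_span_Iio (hI i).2.1) (subset_closure hu)]
      have : ‖u‖ ^ p ≤ R' ^ p := Real.rpow_le_rpow (norm_nonneg _) huR hp0.le
      linarith
    have hnot : ¬ f (x + w i + u) ≤ f (x + w i) + ε * ‖u‖ ^ p := by
      intro hcon
      have := hmax i (‖u‖ ^ p) ⟨u, n', hn', hu', hsum, hcon, rfl⟩
      linarith
    push Not at hnot
    have h3 := hL (x + wl + u) (x + w i + u)
    have h4 : ‖x + wl + u - (x + w i + u)‖ = ‖wl - w i‖ := by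
      congr 1
      abel
    rw [h4] at h3
    have h5 := hL (x + wl) (x + w i)
    have h6 : ‖x + wl - (x + w i)‖ = ‖wl - w i‖ := by
      congr 1
      abel
    rw [h6] at h5
    have h7 := neg_abs_le (f (x + wl + u) - f (x + w i + u))
    have h8 := le_abs_self (f (x + wl) - f (x + w i))
    linarith

end GS
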