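import Pool.Agent.H53.GS.CHA

/-!
# Module CHI: points of growth and their children

`first_good`: `N` is Lipschitz with constant `C` (`N x - N y ≤ N (x - y) ≤ C ‖x - y‖`; replace `C` by `|C|`).
Put `R = (N x + 1)/c + ‖x‖` and `ε = 1/(2 R^p)`. `chain` (with first index `0`) gives `w`, `‖w‖ ≤ R`,
`N (x+w) ≤ N x + ε ‖w‖^p`. If `‖w‖ = R` then `N (x + w) ≥ c (R - ‖x‖) = N x + 1 > N x + ε R^p`, contradiction; so
`‖w‖ < R` and there is `R' > 0` with `‖w‖^p + R'^p ≤ R^p`.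

`child`: let `s > 0` be small (chosen below), `η = min s (ε/8 * s^p)`; take `M` such that for `u ∈ st g M`, `‖u‖ ≤ R`:
`f x + ε ‖u‖^p - η ≤ f (x+u)` and for `V ∈ st g M`, `‖V‖ ≤ 1`: `|q V| ≤ η` (`st_mono`, maximum of the two indices);
both extend to the closure of `st g M` for `‖·‖ < R`, `< 1` (`f`, `q` continuous; scale the approximating vectors
or use that the ball is open). Put `u₀ = s • g M` (norm `s`, `blk_norm`) and apply `chain` to `x + u₀`, first index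
`M+1`, `ε/2`, `R/2`: `w`, `V = u₀ + w ∈ closure (st g M)`. By `blk_split`: `‖V‖^p = s^p + ‖w‖^p`; `‖V‖ < R` if
`s ≤ R/4`. Then `f x + ε ‖V‖^p - η ≤ f (x+V) ≤ f (x+u₀) + ε/2 ‖w‖^p ≤ f x + L s + ε/2 ‖V‖^p`, so
`‖V‖^p ≤ (2/ε)(L+1) s`, which is `< (min δ (R/4) 1)^p` for small `s`. In particular `‖w‖ ≤ ‖V‖ < R/4` and
`‖w‖^p + (R/4)^p ≤ (R/2)^p` (as `2 (R/4)^p ≤ (R/2)^p`, `p ≥ 1`), so `Good f p g (x+u₀+w) (ε/2) (R/4)`. Finally
`f (x+V) - f x - q V ≥ ε ‖V‖^p - 2η ≥ ε/2 ‖V‖^p`, because `2η ≤ ε/4 * s^p ≤ ε/2 * ‖V‖^p`; and `‖V‖ ≥ s > 0`.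
-/

set_option autoImplicit false

open scoped BigOperators Topology

namespace GS

variable {X : Type*} [NormedAddCommGroup X] [NormedSpace ℝ X]

theorem equiv_lip {N : Seminorm ℝ X} (hN : EquivNorm N) :
    ∃ L : ℝ, 0 ≤ L ∧ ∀ x y : X, |N x - N y| ≤ L * ‖x - y‖ := by
  obtain ⟨c, C, -, h⟩ := hN
  refine ⟨|C|, abs_nonneg _, fun x y => ?_⟩
  have h1 : |N x - N y| ≤ N (x - y) := abs_sub_map_le_sub N x y
  have h2 := (h (x - y)).2
  have h3 : C * ‖x - y‖ ≤ |C| * ‖x - y‖ :=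
    mul_le_mul_of_nonneg_right (le_abs_self C) (norm_nonneg _)
  linarith

theorem CHI_two {p : ℝ} (hp : 1 ≤ p) {r : ℝ} (hr : 0 ≤ r) : 2 * r ^ p ≤ (2 * r) ^ p := by
  rw [Real.mul_rpow (by norm_num) hr]
  have h1 : (2 : ℝ) ≤ 2 ^ p := by
    calc (2 : ℝ) = 2 ^ (1 : ℝ) := (Real.rpow_one 2).symm
      _ ≤ 2 ^ p := Real.rpow_le_rpow_of_exponent_le (by norm_num) hp
  exact mul_le_mul_of_nonneg_right h1 (Real.rpow_nonneg hr _)

theorem CHI_closure {S O C : Set X} (hO : IsOpen O) (hC : IsClosed C) (h : O ∩ S ⊆ C) {V : X}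
    (hV : V ∈ closure S) (hVO : V ∈ O) : V ∈ C :=
  (closure_minimal h hC) (hO.inter_closure ⟨hVO, hV⟩)

theorem first_good [CompleteSpace X] {p : ℝ} (hp : 1 ≤ p) {g : ℕ → X} (hg : IsBlk p g)
    {N : Seminorm ℝ X} (hN : EquivNorm N) (x : X) :
    ∃ w ∈ closure (st g 0 : Set X), ∃ ε R : ℝ, 0 < ε ∧ 0 < R ∧ Good N p g (x + w) ε R := by
  have hp0 : 0 < p := by linarith
  obtain ⟨L, hL0, hL⟩ := equiv_lip hN
  obtain ⟨c, C, hc, hcC⟩ := hN
  have hNx : 0 ≤ N x := apply_nonneg N x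
  have hRpos : 0 < (N x + 1) / c + ‖x‖ := by positivity
  set R : ℝ := (N x + 1) / c + ‖x‖ with hR
  have hRp : 0 < R ^ p := Real.rpow_pos_of_pos hRpos _
  have hε : 0 < 1 / (2 * R ^ p) := by positivity
  obtain ⟨w, hw, hwR, hfw, hgood⟩ := chain hp hg hL0 hL x 0 hε hRpos
  have hlt : ‖w‖ < R := by
    rcases lt_or_eq_of_le hwR with h | h
    · exact h
    · exfalso
      have h1 := (hcC (x + w)).1
      have h2 : ‖w‖ - ‖x‖ ≤ ‖x + w‖ := by
        have := norm_sub_norm_le w (-x)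
        rw [norm_neg, sub_neg_eq_add, add_comm w x] at this
        exact this
      have h3 : c * (R - ‖x‖) ≤ N (x + w) := by
        rw [h] at h2
        exact (mul_le_mul_of_nonneg_left h2 hc.le).trans h1
      have h4 : c * (R - ‖x‖) = N x + 1 := by
        rw [hR]
        field_simp
        ring
      rw [h] at hfw
      have h5 : 1 / (2 * R ^ p) * R ^ p = 1 / 2 := by
        field_simp
      rw [h5] at hfw
      linarith
  have hwp : ‖w‖ ^ p < R ^ p := Real.rpow_lt_rpow (norm_nonneg _) hlt hp0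
  -- choose the radius
  have hpos : 0 < (R ^ p - ‖w‖ ^ p) ^ (1 / p) := Real.rpow_pos_of_pos (by linarith) _
  refine ⟨w, hw, 1 / (2 * R ^ p), (R ^ p - ‖w‖ ^ p) ^ (1 / p), hε, hpos, hgood _ hpos ?_⟩
  rw [← Real.rpow_mul (by linarith), one_div, inv_mul_cancel₀ hp0.ne', Real.rpow_one]
  linarith

theorem child [CompleteSpace X] {p : ℝ} (hp : 1 ≤ p) {g : ℕ → X} (hg : IsBlk p g) {f : X → ℝ}
    {L : ℝ} (hL0 : 0 ≤ L) (hL : ∀ x y, |f x - f y| ≤ L * ‖x - y‖) {x : X} {ε R : ℝ}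
    (hε : 0 < ε) (hR : 0 < R) (hx : Good f p g x ε R) {q : X → ℝ} (hqc : Continuous q)
    (hq : Null g q) {δ : ℝ} (hδ : 0 < δ) :
    ∃ V ∈ closure (st g 0 : Set X), 0 < ‖V‖ ∧ ‖V‖ < δ ∧
      ε / 2 * ‖V‖ ^ p ≤ f (x + V) - f x - q V ∧ Good f p g (x + V) (ε / 2) (R / 4) := by
  have hp0 : 0 < p := by linarith
  have hfc : Continuous f := by
    have : LipschitzWith (Real.toNNReal L) f :=
      LipschitzWith.of_dist_le_mul fun x y => by
        rw [Real.dist_eq, dist_eq_norm, Real.coe_toNNReal L hL0]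
        exact hL x y
    exact this.continuous
  have hpc : Continuous fun y : X => ‖y‖ ^ p := continuous_norm.rpow_const fun _ => Or.inr hp0.le
  set K : ℝ := min δ (min (R / 4) 1) with hK
  have hKpos : 0 < K := lt_min hδ (lt_min (by linarith) one_pos)
  have hKδ : K ≤ δ := min_le_left _ _
  have hKR : K ≤ R / 4 := (min_le_right _ _).trans (min_le_left _ _)
  have hK1 : K ≤ 1 := (min_le_right _ _).trans (min_le_right _ _)
  have hKp : 0 < K ^ p := Real.rpow_pos_of_pos hKpos _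
  set s : ℝ := min (R / 4) (K ^ p * ε / (4 * (L + 1))) with hs
  have hspos : 0 < s := lt_min (by linarith) (by positivity)
  have hsR : s ≤ R / 4 := min_le_left _ _
  have hsK : (L + 1) * s ≤ K ^ p * ε / 4 := by
    have h1 : s ≤ K ^ p * ε / (4 * (L + 1)) := min_le_right _ _
    have h2 := mul_le_mul_of_nonneg_left h1 (by linarith : (0 : ℝ) ≤ L + 1)
    refine h2.trans (le_of_eq ?_)
    have : L + 1 ≠ 0 := by linarith
    field_simp
  have hsp : 0 < s ^ p := Real.rpow_pos_of_pos hspos _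
  set η : ℝ := min s (ε / 8 * s ^ p) with hη
  have hηpos : 0 < η := lt_min hspos (by positivity)
  have hηs : η ≤ s := min_le_left _ _
  have hηp : η ≤ ε / 8 * s ^ p := min_le_right _ _
  obtain ⟨M1, hM1⟩ := hx η hηpos
  obtain ⟨M2, hM2⟩ := hq η hηpos
  set M : ℕ := max M1 M2 with hM
  have hgrow : ∀ V ∈ closure (st g M : Set X), ‖V‖ < R → f x + ε * ‖V‖ ^ p - η ≤ f (x + V) := by
    intro V hV hVR
    refine CHI_closure (S := (st g M : Set X)) (O := Metric.ball 0 R)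
      (C := {V | f x + ε * ‖V‖ ^ p - η ≤ f (x + V)}) Metric.isOpen_ball ?_ ?_ hV ?_
    · exact isClosed_le ((continuous_const.add (continuous_const.mul hpc)).sub continuous_const)
        (hfc.comp (continuous_const.add continuous_id))
    · rintro V ⟨h1, h2⟩
      rw [mem_ball_zero_iff] at h1
      exact hM1 V (st_mono (le_max_left _ _) h2) h1.le
    · rw [mem_ball_zero_iff]
      exact hVR
  have hnull : ∀ V ∈ closure (st g M : Set X), ‖V‖ < 1 → |q V| ≤ η := by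
    intro V hV hV1
    refine CHI_closure (S := (st g M : Set X)) (O := Metric.ball 0 1)
      (C := {V | |q V| ≤ η}) Metric.isOpen_ball ?_ ?_ hV ?_
    · exact isClosed_le hqc.abs continuous_const
    · rintro V ⟨h1, h2⟩
      rw [mem_ball_zero_iff] at h1
      exact hM2 V (st_mono (le_max_right _ _) h2) h1.le
    · rw [mem_ball_zero_iff]
      exact hV1
  set u₀ : X := s • g M with hu₀
  have hu₀n : ‖u₀‖ = s := by
    rw [hu₀, norm_smul, blk_norm hp0 hg, mul_one, Real.norm_eq_abs, abs_of_pos hspos]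
  have hu₀m : u₀ ∈ st g M :=
    Submodule.smul_mem _ _ (Submodule.subset_span ⟨M, Set.self_mem_Ici, rfl⟩)
  have hu₀I : u₀ ∈ Submodule.span ℝ (g '' Set.Iio (M + 1)) :=
    Submodule.smul_mem _ _ (Submodule.subset_span ⟨M, Nat.lt_succ_self M, rfl⟩)
  obtain ⟨w, hw, hwR, hfw, hgood⟩ := chain hp hg hL0 hL (x + u₀) (M + 1)
    (by linarith : 0 < ε / 2) (by linarith : 0 < R / 2)
  have hsplit := blk_split hp0 hg hu₀I hw
  rw [hu₀n] at hsplit
  set V : X := u₀ + w with hV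
  have hxV : x + u₀ + w = x + V := by rw [hV, add_assoc]
  rw [hxV] at hfw hgood
  have hVcl : V ∈ closure (st g M : Set X) := by
    rw [← Submodule.topologicalClosure_coe]
    refine Submodule.add_mem _ ?_ ?_
    · exact Submodule.le_topologicalClosure _ hu₀m
    · have : w ∈ closure (st g M : Set X) := closure_mono (st_mono (Nat.le_succ M)) hw
      rwa [← Submodule.topologicalClosure_coe] at this
  have hVR : ‖V‖ < R := by
    have := norm_add_le u₀ w
    rw [hu₀n] at this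
    linarith
  have hwp0 : 0 ≤ ‖w‖ ^ p := Real.rpow_nonneg (norm_nonneg _) _
  have hVp : ‖w‖ ^ p ≤ ‖V‖ ^ p := by linarith
  have hsV : s ^ p ≤ ‖V‖ ^ p := by linarith
  have h1 := hgrow V hVcl hVR
  have h2 := hL (x + u₀) x
  rw [add_sub_cancel_left, hu₀n] at h2
  have h3 := le_abs_self (f (x + u₀) - f x)
  have h4 : ε / 2 * ‖w‖ ^ p ≤ ε / 2 * ‖V‖ ^ p := mul_le_mul_of_nonneg_left hVp (by linarith)
  have h5 : ε / 2 * ‖V‖ ^ p ≤ (L + 1) * s := by linarith
  have h6 : ‖V‖ ^ p < K ^ p := by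
    have h7 : ε / 2 * ‖V‖ ^ p < ε / 2 * K ^ p := by
      have : 0 < ε * K ^ p := by positivity
      nlinarith
    exact lt_of_mul_lt_mul_left h7 (by linarith)
  have hVK : ‖V‖ < K := CHA_rpow_lt hp hKpos.le h6
  have hVpos : 0 < ‖V‖ := by
    rcases (norm_nonneg V).lt_or_eq with h | h
    · exact h
    · rw [← h, Real.zero_rpow hp0.ne'] at hsV
      linarith
  have h8 := hnull V hVcl (lt_of_lt_of_le hVK hK1)
  have h9 := le_abs_self (q V)
  refine ⟨V, closure_mono (st_mono (Nat.zero_le M)) hVcl, hVpos, lt_of_lt_of_le hVK hKδ, ?_, ?_⟩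
  · have h10 : ε / 8 * s ^ p ≤ ε / 8 * ‖V‖ ^ p := mul_le_mul_of_nonneg_left hsV (by linarith)
    linarith
  · refine hgood (R / 4) (by linarith) ?_
    have hwV : ‖w‖ ≤ R / 4 := by
      apply CHA_rpow_le hp (norm_nonneg _) (by linarith)
      have : ‖V‖ ^ p ≤ (R / 4) ^ p :=
        Real.rpow_le_rpow (norm_nonneg _) (hVK.le.trans hKR) hp0.le
      linarith
    have h11 : ‖w‖ ^ p ≤ (R / 4) ^ p := Real.rpow_le_rpow (norm_nonneg _) hwV hp0.le
    have h12 := CHI_two hp (show 0 ≤ R / 4 by linarith)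
    rw [show 2 * (R / 4) = R / 2 by ring] at h12
    linarith

end GS
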