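import Mathlib

/-!
# Gateaux smooth renormings of `ℓ_p`: definitions

Project MP_290f58_GS (helper53): for `p` not an even integer and an integer `k > p` no equivalent norm
on `ℓ_p` is `k` times Gateaux differentiable away from the origin.
-/

set_option autoImplicit false

open scoped BigOperators Topology

namespace GS

section Gateaux

variable {X : Type*} [NormedAddCommGroup X] [NormedSpace ℝ X]

/-- The iterated directional derivative: `iterDeriv f [h₁, …, h_j] x = D_{h₁} ⋯ D_{h_j} f (x)`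
(`lineDeriv ℝ g x h` is the derivative of `t ↦ g (x + t h)` at `0`). -/
noncomputable def iterDeriv (f : X → ℝ) : List X → X → ℝ
  | [] => f
  | h :: l => fun x => lineDeriv ℝ (iterDeriv f l) x h

/-- `f` is `k` times Gateaux differentiable on `U`: for all `1 ≤ j ≤ k` and `x ∈ U` all iterated
directional derivatives `D_{h₁} ⋯ D_{h_j} f (x)` exist, and they are a bounded `j`-linear form of
`(h₁, …, h_j)`. -/
def GateauxDiff (k : ℕ) (f : X → ℝ) (U : Set X) : Prop :=
  ∀ j : ℕ, 1 ≤ j → j ≤ k → ∀ x ∈ U,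
    (∀ (h : X) (l : List X), l.length + 1 = j → LineDifferentiableAt ℝ (iterDeriv f l) x h) ∧
    ∃ M : ContinuousMultilinearMap ℝ (fun _ : Fin j => X) ℝ,
      ∀ h : Fin j → X, M h = iterDeriv f (List.ofFn h) x

/-- An equivalent norm on `X`. -/
def EquivNorm (N : Seminorm ℝ X) : Prop :=
  ∃ c C : ℝ, 0 < c ∧ ∀ x : X, c * ‖x‖ ≤ N x ∧ N x ≤ C * ‖x‖

end Gateaux

section Blocks

variable {X : Type*} [NormedAddCommGroup X] [NormedSpace ℝ X]

/-- `g` is isometrically equivalent to the unit vector basis of `ℓ_p`. -/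
def IsBlk (p : ℝ) (g : ℕ → X) : Prop :=
  ∀ (F : Finset ℕ) (b : ℕ → ℝ), ‖∑ k ∈ F, b k • g k‖ ^ p = ∑ k ∈ F, |b k| ^ p

/-- The span of the vectors `g k`, `k ≥ N`. -/
def st (g : ℕ → X) (N : ℕ) : Submodule ℝ X := Submodule.span ℝ (g '' Set.Ici N)

/-- `f` grows from `x` at least like `ε ‖u‖ ^ p` in the directions at infinity of the span of `g`. -/
def Good (f : X → ℝ) (p : ℝ) (g : ℕ → X) (x : X) (ε R : ℝ) : Prop :=
  ∀ η : ℝ, 0 < η → ∃ M : ℕ, ∀ u ∈ st g M, ‖u‖ ≤ R → f x + ε * ‖u‖ ^ p - η ≤ f (x + u)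

/-- `q` tends to `0` at infinity in the unit ball of the span of `g`. -/
def Null (g : ℕ → X) (q : X → ℝ) : Prop :=
  ∀ η : ℝ, 0 < η → ∃ N : ℕ, ∀ V ∈ st g N, ‖V‖ ≤ 1 → |q V| ≤ η

/-- `g'` is a refinement of `g`. -/
def Ref (g g' : ℕ → X) : Prop := ∀ n, g' n ∈ st g n

theorem st_mono {g : ℕ → X} {m n : ℕ} (h : m ≤ n) : st g n ≤ st g m :=
  Submodule.span_mono (Set.image_mono (Set.Ici_subset_Ici.mpr h))

theorem Ref.st_le {g g' : ℕ → X} (h : Ref g g') (n : ℕ) : st g' n ≤ st g n := by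
  refine Submodule.span_le.mpr ?_
  rintro _ ⟨k, hk, rfl⟩
  exact st_mono hk (h k)

theorem Ref.trans {g g' g'' : ℕ → X} (h : Ref g g') (h' : Ref g' g'') : Ref g g'' :=
  fun n => h.st_le n (h' n)

theorem Ref.refl (g : ℕ → X) : Ref g g := fun n => Submodule.subset_span ⟨n, Set.self_mem_Ici, rfl⟩

theorem Good.ref {f : X → ℝ} {p : ℝ} {g g' : ℕ → X} {x : X} {ε R : ℝ} (h : Good f p g x ε R)
    (hr : Ref g g') : Good f p g' x ε R := fun η hη => by
  obtain ⟨M, hM⟩ := h η hη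
  exact ⟨M, fun u hu => hM u (hr.st_le M hu)⟩

theorem Null.ref {g g' : ℕ → X} {q : X → ℝ} (h : Null g q) (hr : Ref g g') : Null g' q :=
  fun η hη => by
  obtain ⟨M, hM⟩ := h η hη
  exact ⟨M, fun u hu => hM u (hr.st_le M hu)⟩

/-- The Taylor polynomial without constant term, in terms of multilinear forms. -/
noncomputable def poly (k : ℕ) (M : (j : ℕ) → ContinuousMultilinearMap ℝ (fun _ : Fin j => X) ℝ)
    (V : X) : ℝ := ∑ j ∈ Finset.Ico 1 k, (1 / (j.factorial : ℝ)) * M j (fun _ => V)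

end Blocks

end GS
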