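import Pool.Agent.H53.GS.FIN

/-!
# Spaces containing `ℓ_p`
-/

set_option autoImplicit false

open scoped BigOperators Topology ENNReal

namespace GS

variable {X Y : Type*} [NormedAddCommGroup X] [NormedSpace ℝ X] [NormedAddCommGroup Y]
  [NormedSpace ℝ Y]

theorem emb_iter (T : Y →L[ℝ] X) (f : X → ℝ) (l : List Y) (y : Y) :
    iterDeriv (fun z => f (T z)) l y = iterDeriv f (l.map T) (T y) := by
  induction l generalizing y with
  | nil => rfl
  | cons h l ih =>
    show lineDeriv ℝ (iterDeriv (fun z => f (T z)) l) y h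
      = lineDeriv ℝ (iterDeriv f (l.map T)) (T y) (T h)
    unfold lineDeriv
    congr 1
    funext t
    rw [ih, map_add, map_smul]

theorem emb_diff (T : Y →L[ℝ] X) (hT : ∀ y, T y = 0 → y = 0) {k : ℕ} {f : X → ℝ}
    (hf : GateauxDiff k f {0}ᶜ) : GateauxDiff k (fun z => f (T z)) {0}ᶜ := by
  intro j h1 h2 y hy
  have hTy : T y ∈ ({0}ᶜ : Set X) := fun h0 => hy (hT y h0)
  obtain ⟨ha, M, hM⟩ := hf j h1 h2 (T y) hTy
  refine ⟨fun h l hl => ?_, M.compContinuousLinearMap (fun _ => T), fun h => ?_⟩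
  · have h3 := ha (T h) (l.map T) (by rw [List.length_map]; exact hl)
    unfold LineDifferentiableAt at h3 ⊢
    refine h3.congr_of_eventuallyEq (Filter.Eventually.of_forall fun t => ?_)
    show iterDeriv (fun z => f (T z)) l (y + t • h) = iterDeriv f (l.map T) (T y + t • T h)
    rw [emb_iter, map_add, map_smul]
  · rw [emb_iter, List.map_ofFn, ContinuousMultilinearMap.compContinuousLinearMap_apply, hM]
    rfl

/-- If `X` contains an isomorphic copy of `ℓ_p`, `p` not an even integer, and `k > p` is an integer,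
then no equivalent norm on `X` is `k` times Gateaux differentiable away from the origin. -/
theorem emb_main (p : ℝ≥0∞) [Fact (1 ≤ p)] (hp : p ≠ ⊤) (hpar : ∀ m : ℕ, p ≠ 2 * m) (k : ℕ)
    (hk : p < k) (T : lp (fun _ : ℕ => ℝ) p →L[ℝ] X) (c : ℝ) (hc : 0 < c)
    (hT : ∀ x, c * ‖x‖ ≤ ‖T x‖) (N : Seminorm ℝ X) (hN : EquivNorm N) :
    ¬ GateauxDiff k N {0}ᶜ := by
  intro hf
  have hinj : ∀ y, T y = 0 → y = 0 := by
    intro y hy
    have := hT y
    rw [hy, norm_zero] at this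
    have h2 : ‖y‖ ≤ 0 := by
      by_contra hcon
      push Not at hcon
      have := mul_pos hc hcon
      linarith
    exact norm_le_zero_iff.mp h2
  obtain ⟨a, A, ha, hN'⟩ := hN
  have hcomp : EquivNorm (N.comp (T : lp (fun _ : ℕ => ℝ) p →ₗ[ℝ] X)) := by
    refine ⟨a * c, |A| * ‖T‖, by positivity, fun x => ⟨?_, ?_⟩⟩
    · show a * c * ‖x‖ ≤ N (T x)
      calc a * c * ‖x‖ = a * (c * ‖x‖) := by ring
        _ ≤ a * ‖T x‖ := mul_le_mul_of_nonneg_left (hT x) ha.le
        _ ≤ N (T x) := (hN' (T x)).1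
    · show N (T x) ≤ |A| * ‖T‖ * ‖x‖
      calc N (T x) ≤ A * ‖T x‖ := (hN' (T x)).2
        _ ≤ |A| * ‖T x‖ := mul_le_mul_of_nonneg_right (le_abs_self A) (norm_nonneg _)
        _ ≤ |A| * (‖T‖ * ‖x‖) := mul_le_mul_of_nonneg_left (T.le_opNorm x) (abs_nonneg A)
        _ = |A| * ‖T‖ * ‖x‖ := by ring
  exact fin_lp p hp hpar k hk (N.comp (T : lp (fun _ : ℕ => ℝ) p →ₗ[ℝ] X)) hcomp
    (emb_diff T hinj hf)

end GS
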