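import Pool.Agent.H53.GS.Blk

/-!
# Module LPB: the unit vectors of `ℓ_p`

`lp_blk`: `lp.norm_rpow_eq_tsum` (for `0 < p.toReal`): `‖x‖ ^ p.toReal = ∑' i, ‖x i‖ ^ p.toReal`; the vector
`∑ k ∈ F, b k • lp.single p (k+1) 1` has coordinates `b (i-1)` at `i ∈ F + 1` and `0` elsewhere, or use
`lp.norm_sum_single` : `‖∑ i ∈ s, lp.single p i (f i)‖ ^ p.toReal = ∑ i ∈ s, ‖f i‖ ^ p.toReal`.
`lp_coord`: evaluation at the coordinate `0` is continuous (`lp.norm_apply_le_norm`); Mathlib may have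
`lp.evalCLM`.
-/

set_option autoImplicit false

open scoped BigOperators Topology ENNReal

namespace GS

theorem lp_blk (p : ℝ≥0∞) [Fact (1 ≤ p)] (hp : p ≠ ⊤) :
    IsBlk p.toReal (fun n : ℕ => (lp.single p (n + 1) (1 : ℝ) : lp (fun _ : ℕ => ℝ) p)) := by
  have hp1 : (1 : ℝ≥0∞) ≤ p := Fact.out
  have hp0 : 0 < p.toReal := ENNReal.toReal_pos (by
    intro h
    rw [h] at hp1
    exact absurd hp1 (by simp)) hp
  intro F b
  have e : ∑ k ∈ F, b k • (lp.single p (k + 1) (1 : ℝ) : lp (fun _ : ℕ => ℝ) p)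
      = ∑ i ∈ F.map (addRightEmbedding 1), lp.single p i (b (i - 1)) := by
    rw [Finset.sum_map]
    refine Finset.sum_congr rfl fun k _ => ?_
    rw [addRightEmbedding_apply, Nat.add_sub_cancel, ← lp.single_smul, smul_eq_mul, mul_one]
  rw [e, lp.norm_sum_single hp0 (fun i => b (i - 1)) (F.map (addRightEmbedding 1)),
    Finset.sum_map]
  refine Finset.sum_congr rfl fun k _ => ?_
  rw [addRightEmbedding_apply, Nat.add_sub_cancel, Real.norm_eq_abs]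

theorem lp_coord (p : ℝ≥0∞) [Fact (1 ≤ p)] :
    ∃ φ : lp (fun _ : ℕ => ℝ) p →L[ℝ] ℝ, φ (lp.single p 0 (1 : ℝ)) = 1 ∧
      ∀ n : ℕ, φ (lp.single p (n + 1) (1 : ℝ)) = 0 := by
  refine ⟨lp.evalCLM ℝ (fun _ : ℕ => ℝ) p 0, ?_, fun n => ?_⟩
  · show (lp.single p 0 (1 : ℝ) : lp (fun _ : ℕ => ℝ) p) 0 = 1
    rw [lp.single_apply, Pi.single_eq_same]
  · show (lp.single p (n + 1) (1 : ℝ) : lp (fun _ : ℕ => ℝ) p) 0 = 0
    rw [lp.single_apply, Pi.single_eq_of_ne (by omega)]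

end GS
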