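import Pool.Agent.H53.GS.Defs

/-!
# Module POL: the Taylor polynomial

`poly_continuous`: `ContinuousMultilinearMap.cont`.
`poly_diff`: for each `j < k`, `l ↦ M j (fun _ => V + l • w)` is a polynomial in `l` of degree `≤ j < k`:
by `MultilinearMap.map_add_univ` (or `ContinuousMultilinearMap.map_add_univ`) it is
`∑_{s ⊆ Fin j} M j (s.piecewise (fun _ => V) (fun _ => l • w)) = ∑_s l ^ (card sᶜ) * M j (s.piecewise V w)`
(`map_piecewise_smul`). And `∑_{l ≤ k} (-1)^l C(k,l) l^d = 0` for `d < k`: Mathlib has the iterated forward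
difference of `x ^ d` (`fwdDiff_iter_pow_lt`, `fwdDiff_iter_eq_sum_shift` in
`Mathlib/Algebra/Group/ForwardDiff.lean`), or `Finset.alternating_sum_...`; note `(-1)^l` versus `(-1)^(k-l)`.
-/

set_option autoImplicit false

open scoped BigOperators Topology

namespace GS

variable {X : Type*} [NormedAddCommGroup X] [NormedSpace ℝ X]

theorem POL_alt {k d : ℕ} (h : d < k) :
    ∑ l ∈ Finset.range (k + 1), (-1 : ℝ) ^ l * (k.choose l : ℝ) * (l : ℝ) ^ d = 0 := by
  have h0 := congrFun (fwdDiff_iter_pow_eq_zero_of_lt (R := ℝ) h) 0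
  rw [fwdDiff_iter_eq_sum_shift] at h0
  have h1 : ∑ l ∈ Finset.range (k + 1), (-1 : ℝ) ^ l * (k.choose l : ℝ) * (l : ℝ) ^ d
      = (-1 : ℝ) ^ k * ∑ l ∈ Finset.range (k + 1),
        ((-1 : ℤ) ^ (k - l) * (k.choose l : ℤ)) • ((0 : ℝ) + l • (1 : ℝ)) ^ d := by
    rw [Finset.mul_sum]
    refine Finset.sum_congr rfl fun l hl => ?_
    have hl' : l ≤ k := Nat.lt_succ_iff.mp (Finset.mem_range.mp hl)
    obtain ⟨m, rfl⟩ := Nat.exists_eq_add_of_le hl'
    rw [Nat.add_sub_cancel_left, zsmul_eq_mul, nsmul_eq_mul, mul_one, zero_add]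
    push_cast
    rw [pow_add]
    have e : (-1 : ℝ) ^ m * (-1 : ℝ) ^ m = 1 := by
      rw [← mul_pow]
      norm_num
    linear_combination (-(-1 : ℝ) ^ l * ((l + m).choose l : ℝ) * (l : ℝ) ^ d) * e
  rw [h1, h0]
  simp

theorem POL_expand {j : ℕ} (M : ContinuousMultilinearMap ℝ (fun _ : Fin j => X) ℝ) (V w : X)
    (t : ℝ) : M (fun _ => V + t • w)
      = ∑ s : Finset (Fin j), t ^ s.card * M (s.piecewise (fun _ => w) (fun _ => V)) := by
  have h := M.toMultilinearMap.map_add_univ (fun _ => t • w) (fun _ => V)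
  have e : ((fun _ => t • w) + (fun _ => V) : Fin j → X) = fun _ => V + t • w := by
    funext i
    rw [Pi.add_apply, add_comm]
  rw [e] at h
  refine h.trans (Finset.sum_congr rfl fun s _ => ?_)
  have h2 := M.toMultilinearMap.map_piecewise_smul (fun _ => t)
    (s.piecewise (fun _ => w) (fun _ => V)) s
  have e2 : s.piecewise (fun i => t • s.piecewise (fun _ => w) (fun _ => V) i)
      (s.piecewise (fun _ => w) (fun _ => V)) = s.piecewise (fun _ => t • w) (fun _ => V) := by
    funext i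
    by_cases hi : i ∈ s
    · rw [Finset.piecewise_eq_of_mem _ _ _ hi, Finset.piecewise_eq_of_mem _ _ _ hi,
        Finset.piecewise_eq_of_mem _ _ _ hi]
    · rw [Finset.piecewise_eq_of_notMem _ _ _ hi, Finset.piecewise_eq_of_notMem _ _ _ hi,
        Finset.piecewise_eq_of_notMem _ _ _ hi]
  rw [e2, Finset.prod_const, smul_eq_mul] at h2
  exact h2

theorem poly_continuous (k : ℕ)
    (M : (j : ℕ) → ContinuousMultilinearMap ℝ (fun _ : Fin j => X) ℝ) :
    Continuous (poly k M) := by
  unfold poly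
  exact continuous_finsetSum _ fun j _ =>
    continuous_const.mul ((M j).cont.comp (continuous_pi fun _ => continuous_id))

theorem poly_diff (k : ℕ) (M : (j : ℕ) → ContinuousMultilinearMap ℝ (fun _ : Fin j => X) ℝ)
    (V w : X) :
    ∑ l ∈ Finset.range (k + 1), (-1 : ℝ) ^ l * (k.choose l : ℝ) * poly k M (V + (l : ℝ) • w) = 0 := by
  have h1 : ∀ l ∈ Finset.range (k + 1),
      (-1 : ℝ) ^ l * (k.choose l : ℝ) * poly k M (V + (l : ℝ) • w)
      = ∑ j ∈ Finset.Ico 1 k, ∑ s : Finset (Fin j),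
        ((1 / (j.factorial : ℝ)) * M j (s.piecewise (fun _ => w) (fun _ => V))) *
          ((-1 : ℝ) ^ l * (k.choose l : ℝ) * (l : ℝ) ^ s.card) := by
    intro l _
    unfold poly
    rw [Finset.mul_sum]
    refine Finset.sum_congr rfl fun j _ => ?_
    rw [POL_expand, Finset.mul_sum, Finset.mul_sum]
    refine Finset.sum_congr rfl fun s _ => ?_
    ring
  rw [Finset.sum_congr rfl h1, Finset.sum_comm]
  refine Finset.sum_eq_zero fun j hj => ?_
  rw [Finset.sum_comm]
  refine Finset.sum_eq_zero fun s _ => ?_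
  rw [← Finset.mul_sum, POL_alt, mul_zero]
  have h2 : s.card ≤ j := by
    have := Finset.card_le_univ s
    rwa [Fintype.card_fin] at this
  have h3 := (Finset.mem_Ico.mp hj).2
  omega

end GS
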