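import Pool.Agent.H53.GS.ODD

/-!
# Module PRF: the Taylor polynomial is null along a refinement

`poly (⌊p⌋₊+1) M V = ∑_{1 ≤ j ≤ ⌊p⌋₊} (1/j!) M j (V,…,V)`. For `j < p` the form is null along `g` by `null_low` with
`S = ∅`. If `⌊p⌋₊ < p` we are done with `g' = g`. Otherwise `p = ⌊p⌋₊` is a natural number, odd by `hpar`, and
`odd_ref` gives `g'` along which the form of degree `p` is null; the others are null along `g'` by `Null.ref`.
Finite sums and multiples of null functions are null.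
-/

set_option autoImplicit false

open scoped BigOperators Topology

namespace GS

variable {X : Type*} [NormedAddCommGroup X] [NormedSpace ℝ X]

theorem PRF_sum {g : ℕ → X} (s : Finset ℕ) (c : ℕ → ℝ) (q : ℕ → X → ℝ)
    (h : ∀ j ∈ s, Null g (q j)) : Null g (fun V => ∑ j ∈ s, c j * q j V) := by
  classical
  induction s using Finset.induction_on with
  | empty =>
    intro η hη
    exact ⟨0, fun V _ _ => by simpa using hη.le⟩
  | insert a s ha ih =>
    intro η hη
    obtain ⟨N1, h1⟩ := ih (fun j hj => h j (Finset.mem_insert_of_mem hj)) (η / 2) (by linarith)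
    obtain ⟨N2, h2⟩ := h a (Finset.mem_insert_self _ _) (η / 2 / (|c a| + 1)) (by positivity)
    refine ⟨max N1 N2, fun V hV hV1 => ?_⟩
    have e1 := h1 V (st_mono (le_max_left _ _) hV) hV1
    have e2 := h2 V (st_mono (le_max_right _ _) hV) hV1
    show |∑ j ∈ insert a s, c j * q j V| ≤ η
    rw [Finset.sum_insert ha]
    refine (abs_add_le _ _).trans ?_
    have e3 : |c a * q a V| ≤ η / 2 := by
      rw [abs_mul]
      have h3 : |c a| * |q a V| ≤ (|c a| + 1) * (η / 2 / (|c a| + 1)) := by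
        refine mul_le_mul (by linarith) e2 (abs_nonneg _) (by positivity)
      rwa [mul_div_cancel₀ _ (by positivity)] at h3
    simp only at e1
    linarith

theorem PRF_low {p : ℝ} (hp : 1 ≤ p) {g : ℕ → X} (hg : IsBlk p g)
    (M : (j : ℕ) → ContinuousMultilinearMap ℝ (fun _ : Fin j => X) ℝ) (j : ℕ) (hj : 1 ≤ j)
    (hjp : (j : ℝ) < p) : Null g (fun V => M j (fun _ => V)) := by
  have h := null_low hp hg (M j) ∅ 0 (by simpa using hj) (by simpa using hjp)
  simpa using h

theorem poly_null {p : ℝ} (hp : 1 ≤ p) (hpar : ∀ m : ℕ, p ≠ 2 * m) {g : ℕ → X} (hg : IsBlk p g)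
    (M : (j : ℕ) → ContinuousMultilinearMap ℝ (fun _ : Fin j => X) ℝ) :
    ∃ g' : ℕ → X, Ref g g' ∧ IsBlk p g' ∧ Null g' (poly (⌊p⌋₊ + 1) M) := by
  have hfl : (⌊p⌋₊ : ℝ) ≤ p := Nat.floor_le (by linarith)
  rcases hfl.lt_or_eq with h1 | h1
  · refine ⟨g, Ref.refl g, hg, PRF_sum _ _ (fun j V => M j (fun _ => V)) fun j hj => ?_⟩
    rw [Finset.mem_Ico] at hj
    refine PRF_low hp hg M j hj.1 (lt_of_le_of_lt ?_ h1)
    exact_mod_cast (by omega : j ≤ ⌊p⌋₊)
  · have hodd : Odd ⌊p⌋₊ := by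
      rw [← Nat.not_even_iff_odd]
      rintro ⟨m, hm⟩
      apply hpar m
      rw [← h1, hm]
      push_cast
      ring
    have hg1 : IsBlk (⌊p⌋₊ : ℝ) g := by rw [h1]; exact hg
    obtain ⟨g', hr, hb, hn⟩ := odd_ref hodd hg1 (M ⌊p⌋₊)
    refine ⟨g', hr, by rw [h1] at hb; exact hb,
      PRF_sum _ _ (fun j V => M j (fun _ => V)) fun j hj => ?_⟩
    rw [Finset.mem_Ico] at hj
    by_cases hjk : j = ⌊p⌋₊
    · subst hjk
      exact hn
    · refine (PRF_low hp hg M j hj.1 ?_).ref hr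
      rw [← h1]
      exact_mod_cast (by omega : j < ⌊p⌋₊)

end GS
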