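import Pool.Agent.H53.GS.TAY
import Pool.Agent.H53.GS.POL
import Pool.Agent.H53.GS.BAI
import Pool.Agent.H53.GS.CHI
import Pool.Agent.H53.GS.PRF
import Pool.Agent.H53.GS.LPB

/-!
# Assembly
-/

set_option autoImplicit false

open scoped BigOperators Topology ENNReal

namespace GS

variable {X : Type*} [NormedAddCommGroup X] [NormedSpace ℝ X]

theorem GateauxDiff.mono {k k' : ℕ} (hkk : k' ≤ k) {f : X → ℝ} {U : Set X}
    (h : GateauxDiff k f U) : GateauxDiff k' f U :=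
  fun j h1 h2 => h j h1 (h2.trans hkk)

theorem fin_vanish (φ : X →L[ℝ] ℝ) {g : ℕ → X} (hφ : ∀ n, φ (g n) = 0) {n : ℕ} {w : X}
    (hw : w ∈ closure (st g n : Set X)) : φ w = 0 := by
  have h1 : (st g n : Set X) ⊆ {x | φ x = 0} := by
    have : st g n ≤ LinearMap.ker (φ : X →ₗ[ℝ] ℝ) := by
      refine Submodule.span_le.mpr ?_
      rintro _ ⟨k, -, rfl⟩
      exact hφ k
    intro x hx
    exact this hx
  have h2 : IsClosed {x | φ x = 0} := isClosed_eq φ.continuous continuous_const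
  exact (closure_minimal h1 h2) hw

theorem fin_abstract [CompleteSpace X] {p : ℝ} (hp : 1 ≤ p) (hpar : ∀ m : ℕ, p ≠ 2 * m)
    {g : ℕ → X} (hg : IsBlk p g) (φ : X →L[ℝ] ℝ) (x₀ : X) (hx₀ : φ x₀ = 1)
    (hφ : ∀ n, φ (g n) = 0) (N : Seminorm ℝ X) (hN : EquivNorm N) :
    ¬ GateauxDiff (⌊p⌋₊ + 1) N {0}ᶜ := by
  classical
  intro hf
  obtain ⟨L, hL0, hL⟩ := equiv_lip hN
  set k : ℕ := ⌊p⌋₊ + 1 with hk
  have hU : IsOpen ({0}ᶜ : Set X) := isOpen_compl_singleton
  have hM : ∀ x : X, ∃ M : (j : ℕ) → ContinuousMultilinearMap ℝ (fun _ : Fin j => X) ℝ,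
      x ∈ ({0}ᶜ : Set X) → ∀ j, 1 ≤ j → j < k → ∀ h : Fin j → X,
        M j h = iterDeriv N (List.ofFn h) x := by
    intro x
    by_cases hx : x ∈ ({0}ᶜ : Set X)
    · have : ∀ j, ∃ M : ContinuousMultilinearMap ℝ (fun _ : Fin j => X) ℝ,
          1 ≤ j → j < k → ∀ h : Fin j → X, M h = iterDeriv N (List.ofFn h) x := by
        intro j
        by_cases hj : 1 ≤ j ∧ j < k
        · obtain ⟨M, hM⟩ := (hf j hj.1 hj.2.le x hx).2
          exact ⟨M, fun _ _ => hM⟩
        · exact ⟨0, fun h1 h2 => absurd ⟨h1, h2⟩ hj⟩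
      choose M hM using this
      exact ⟨M, fun _ => hM⟩
    · exact ⟨fun _ => 0, fun h => absurd h hx⟩
  choose M hM using hM
  refine baire_main (fun x => N x) ?_ k (by omega) p (by linarith) ?_
    (fun x V => poly k (M x) V) {0}ᶜ (fun x _ => poly_continuous k (M x))
    (fun x _ V w => poly_diff k (M x) V w) ?_
    {x | φ x = 1 ∧ ∃ (g' : ℕ → X) (ε R : ℝ), IsBlk p g' ∧ (∀ n, φ (g' n) = 0) ∧ 0 < ε ∧ 0 < R ∧
      Good (fun x => N x) p g' x ε R} ?_ ?_ ?_
  · have : LipschitzWith (Real.toNNReal L) (fun x : X => N x) :=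
      LipschitzWith.of_dist_le_mul fun x y => by
        rw [Real.dist_eq, dist_eq_norm, Real.coe_toNNReal L hL0]
        exact hL x y
    exact this.continuous
  · rw [hk]
    push_cast
    exact Nat.lt_floor_add_one p
  · intro x hx h
    exact tay_gateaux (by omega) hU hf x hx (M x) (hM x hx) h
  · obtain ⟨w, hw, ε, R, hε, hR, hgood⟩ := first_good hp hg hN x₀
    refine ⟨x₀ + w, ?_, g, ε, R, hg, hφ, hε, hR, hgood⟩
    rw [map_add, hx₀, fin_vanish φ hφ hw, add_zero]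
  · have h1 : {x : X | φ x = 1 ∧ ∃ (g' : ℕ → X) (ε R : ℝ), IsBlk p g' ∧ (∀ n, φ (g' n) = 0) ∧
        0 < ε ∧ 0 < R ∧ Good (fun x => N x) p g' x ε R} ⊆ {x | φ x = 1} := fun x hx => hx.1
    have h2 : IsClosed {x | φ x = 1} := isClosed_eq φ.continuous continuous_const
    intro x hx
    have h3 : φ x = 1 := (closure_minimal h1 h2) hx
    intro h0
    rw [Set.mem_singleton_iff] at h0
    rw [h0, map_zero] at h3
    exact zero_ne_one h3
  · rintro x ⟨hx1, g', ε, R, hg', hφ', hε, hR, hgood⟩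
    obtain ⟨g'', hr, hg'', hnull⟩ := poly_null hp hpar hg' (M x)
    have hφ'' : ∀ n, φ (g'' n) = 0 := fun n => fin_vanish φ hφ' (subset_closure (hr n))
    refine ⟨ε / 2, by linarith, fun δ hδ => ?_⟩
    obtain ⟨V, hV, hV0, hVδ, hineq, hgood'⟩ := child hp hg'' hL0 hL hε hR (hgood.ref hr)
      (poly_continuous k (M x)) hnull hδ
    refine ⟨V, hV0, hVδ, ⟨?_, g'', ε / 2, R / 4, hg'', hφ'', by linarith, by linarith, hgood'⟩,
      hineq⟩
    rw [map_add, hx1, fin_vanish φ hφ'' hV, add_zero]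

/-- For `p` not an even integer and an integer `k > p` no equivalent norm on `ℓ_p` is `k` times
Gateaux differentiable away from the origin. -/
theorem fin_lp (p : ℝ≥0∞) [Fact (1 ≤ p)] (hp : p ≠ ⊤) (hpar : ∀ m : ℕ, p ≠ 2 * m) (k : ℕ)
    (hk : p < k) (N : Seminorm ℝ (lp (fun _ : ℕ => ℝ) p)) (hN : EquivNorm N) :
    ¬ GateauxDiff k N {0}ᶜ := by
  have h1 : (1 : ℝ≥0∞) ≤ p := Fact.out
  have hp1 : 1 ≤ p.toReal := by
    have := ENNReal.toReal_mono hp h1
    simpa using this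
  have hpar' : ∀ m : ℕ, p.toReal ≠ 2 * m := by
    intro m hm
    apply hpar m
    rw [← ENNReal.ofReal_toReal hp, hm]
    rw [ENNReal.ofReal_mul (by norm_num)]
    simp
  have hk' : ⌊p.toReal⌋₊ + 1 ≤ k := by
    have : p.toReal < k := by
      have := (ENNReal.toReal_lt_toReal hp (ENNReal.natCast_ne_top k)).mpr hk
      simpa using this
    have := (Nat.floor_lt (by linarith)).mpr this
    omega
  obtain ⟨φ, hφ0, hφ⟩ := lp_coord p
  intro hf
  exact fin_abstract hp1 hpar' (lp_blk p hp) φ _ hφ0 hφ N hN (hf.mono hk')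

end GS
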