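import Pool.Agent.H53.GS.Blk

/-!
# Module NLO: forms of degree `< p` vanish at infinity of `ℓ_p`

`null_low` by strong induction on `d = card Sᶜ` (for all `S`, `v`). Let
`q W = M (S.piecewise v (fun _ => W))`. Since `-q` is of the same kind (`-M`), it is enough to show the upper bound
`∀ η > 0, ∃ N, ∀ V ∈ st g N, ‖V‖ ≤ 1 → q V ≤ η`. Facts: `q 0 = 0`, `q (t • W) = t^d * q W`,
`|q W| ≤ B` for `‖W‖ ≤ 1` (`B = ‖M‖ * ∏ ...`), and (expansion) for all `V, W`
`q (V + W) = q V + q W + ∑_{A ⊆ Sᶜ, A ≠ ∅, A ≠ Sᶜ} M ((S ∪ A).piecewise v' (fun _ => W))`, where `v' i = V` for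
`i ∈ A` and `v' i = v i` for `i ∈ S` (`MultilinearMap.map_piecewise_add`); each function of the last sum is null by
the induction hypothesis (`card (S ∪ A)ᶜ = d - card A ∈ [1, d-1]`).
Let `T = {c ≥ 0 | ∃ N, ∀ V ∈ st g N, ‖V‖ ≤ 1 → q V ≤ c}` (contains `B`, upward closed) and `a = sInf T ≥ 0`.
Suppose `a > 0`. As `2^(d/p) < 2` there is `δ ∈ (0,1)` with `(1+δ) * 2^(d/p) < 2 - 3δ`. `(1+δ) a ∈ T`: there is `N` with
`q Y ≤ (1+δ) a` for `Y ∈ st g N`, `‖Y‖ ≤ 1`. `(1-δ) a ∉ T`: for every index there is such a vector with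
`q > (1-δ) a`. Take `V ∈ st g N`, `‖V‖ ≤ 1`, `q V > (1-δ) a`; `V` lies in the span of `g '' Iio n` (`st_bdd`). Take
`n' ≥ max n N` so large that the sum of the mixed terms is at most `δ a` in absolute value for all
`W ∈ st g n'`, `‖W‖ ≤ 1`, and then such a `W` with `q W > (1-δ) a`. So `q (V+W) > (2 - 3δ) a`. But
`‖V + W‖^p = ‖V‖^p + ‖W‖^p ≤ 2` (`blk_split`), so with `λ = 2^(1/p)` the vector `Y = λ⁻¹ • (V+W) ∈ st g N` has
`‖Y‖ ≤ 1` and `q (V+W) = λ^d q Y ≤ 2^(d/p) (1+δ) a`. Contradiction. So `a = 0` and every `η > 0` is in `T`.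
-/

set_option autoImplicit false

open scoped BigOperators Topology

namespace GS

variable {X : Type*} [NormedAddCommGroup X] [NormedSpace ℝ X]

theorem NLO_null_zero {g : ℕ → X} : Null g (fun _ : X => (0 : ℝ)) :=
  fun η hη => ⟨0, fun V _ _ => by rw [abs_zero]; exact hη.le⟩

theorem NLO_null_add {g : ℕ → X} {q r : X → ℝ} (hq : Null g q) (hr : Null g r) :
    Null g (fun V => q V + r V) := fun η hη => by
  obtain ⟨N, hN⟩ := hq (η / 2) (half_pos hη)
  obtain ⟨N', hN'⟩ := hr (η / 2) (half_pos hη)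
  refine ⟨max N N', fun V hV hV1 => ?_⟩
  have h1 := hN V (st_mono (le_max_left _ _) hV) hV1
  have h2 := hN' V (st_mono (le_max_right _ _) hV) hV1
  calc |q V + r V| ≤ |q V| + |r V| := abs_add_le _ _
    _ ≤ η / 2 + η / 2 := add_le_add h1 h2
    _ = η := add_halves η

theorem NLO_null_sum {g : ℕ → X} {ι : Type*} (R : Finset ι) (f : ι → X → ℝ)
    (h : ∀ s ∈ R, Null g (f s)) : Null g (fun W => ∑ s ∈ R, f s W) := by
  classical
  induction R using Finset.induction_on with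
  | empty => simpa using (NLO_null_zero (g := g))
  | insert a R ha ih =>
    simp only [Finset.sum_insert ha]
    exact NLO_null_add (h a (Finset.mem_insert_self a R))
      (ih fun s hs => h s (Finset.mem_insert_of_mem hs))

theorem NLO_smul {n : ℕ} (M : ContinuousMultilinearMap ℝ (fun _ : Fin n => X) ℝ)
    (S : Finset (Fin n)) (v : Fin n → X) (t : ℝ) (W : X) :
    M (S.piecewise v (fun _ => t • W)) = t ^ (Sᶜ.card) * M (S.piecewise v (fun _ => W)) := by
  have h := M.toMultilinearMap.map_piecewise_smul (fun _ => t) (S.piecewise v (fun _ => W)) Sᶜ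
  have e : Sᶜ.piecewise (fun i => t • S.piecewise v (fun _ => W) i) (S.piecewise v (fun _ => W))
      = S.piecewise v (fun _ => t • W) := by
    funext i
    by_cases hi : i ∈ S
    · rw [Finset.piecewise_eq_of_notMem _ _ _ (by simpa using hi),
        Finset.piecewise_eq_of_mem _ _ _ hi, Finset.piecewise_eq_of_mem _ _ _ hi]
    · rw [Finset.piecewise_eq_of_mem _ _ _ (by simpa using hi),
        Finset.piecewise_eq_of_notMem _ _ _ hi, Finset.piecewise_eq_of_notMem _ _ _ hi]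
  rw [e] at h
  rw [Finset.prod_const, smul_eq_mul] at h
  exact h

theorem NLO_expand {n : ℕ} (M : ContinuousMultilinearMap ℝ (fun _ : Fin n => X) ℝ)
    (S : Finset (Fin n)) (v : Fin n → X) (h1 : 1 ≤ Sᶜ.card) (V W : X) :
    M (S.piecewise v (fun _ => V + W)) = M (S.piecewise v (fun _ => V))
      + M (S.piecewise v (fun _ => W))
      + ∑ A ∈ (Sᶜ.powerset.erase ∅).erase Sᶜ,
          M ((S ∪ A).piecewise (A.piecewise (fun _ => V) v) (fun _ => W)) := by
  have h := M.toMultilinearMap.map_piecewise_add (fun _ => V) (S.piecewise v (fun _ => W)) Sᶜ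
  have e : Sᶜ.piecewise ((fun _ => V) + S.piecewise v (fun _ => W)) (S.piecewise v (fun _ => W))
      = S.piecewise v (fun _ => V + W) := by
    funext i
    by_cases hi : i ∈ S
    · rw [Finset.piecewise_eq_of_notMem _ _ _ (by simpa using hi),
        Finset.piecewise_eq_of_mem _ _ _ hi, Finset.piecewise_eq_of_mem _ _ _ hi]
    · rw [Finset.piecewise_eq_of_mem _ _ _ (by simpa using hi), Pi.add_apply,
        Finset.piecewise_eq_of_notMem _ _ _ hi, Finset.piecewise_eq_of_notMem _ _ _ hi]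
  rw [e] at h
  have hne : Sᶜ ≠ ∅ := by
    intro h0
    rw [h0, Finset.card_empty] at h1
    omega
  have m1 : (∅ : Finset (Fin n)) ∈ Sᶜ.powerset := Finset.empty_mem_powerset _
  have m2 : Sᶜ ∈ Sᶜ.powerset.erase ∅ :=
    Finset.mem_erase.mpr ⟨hne, Finset.mem_powerset_self _⟩
  rw [← Finset.add_sum_erase _ _ m1, ← Finset.add_sum_erase _ _ m2] at h
  have t1 : (∅ : Finset (Fin n)).piecewise (fun _ => V) (S.piecewise v (fun _ => W))
      = S.piecewise v (fun _ => W) := Finset.piecewise_empty _ _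
  have t2 : Sᶜ.piecewise (fun _ => V) (S.piecewise v (fun _ => W))
      = S.piecewise v (fun _ => V) := by
    funext i
    by_cases hi : i ∈ S
    · rw [Finset.piecewise_eq_of_notMem _ _ _ (by simpa using hi),
        Finset.piecewise_eq_of_mem _ _ _ hi, Finset.piecewise_eq_of_mem _ _ _ hi]
    · rw [Finset.piecewise_eq_of_mem _ _ _ (by simpa using hi),
        Finset.piecewise_eq_of_notMem _ _ _ hi]
  have t3 : ∀ A : Finset (Fin n), A.piecewise (fun _ => V) (S.piecewise v (fun _ => W))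
      = (S ∪ A).piecewise (A.piecewise (fun _ => V) v) (fun _ => W) := by
    intro A
    funext i
    by_cases hA : i ∈ A
    · rw [Finset.piecewise_eq_of_mem _ _ _ hA,
        Finset.piecewise_eq_of_mem _ _ _ (Finset.mem_union_right _ hA),
        Finset.piecewise_eq_of_mem _ _ _ hA]
    · rw [Finset.piecewise_eq_of_notMem _ _ _ hA]
      by_cases hi : i ∈ S
      · rw [Finset.piecewise_eq_of_mem _ _ _ hi,
          Finset.piecewise_eq_of_mem _ _ _ (Finset.mem_union_left _ hi),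
          Finset.piecewise_eq_of_notMem _ _ _ hA]
      · rw [Finset.piecewise_eq_of_notMem _ _ _ hi, Finset.piecewise_eq_of_notMem]
        intro h
        rcases Finset.mem_union.mp h with h | h
        · exact hi h
        · exact hA h
  have h' : M (S.piecewise v (fun _ => V + W)) = M (S.piecewise v (fun _ => W))
      + (M (S.piecewise v (fun _ => V)) + ∑ A ∈ (Sᶜ.powerset.erase ∅).erase Sᶜ,
          M ((S ∪ A).piecewise (A.piecewise (fun _ => V) v) (fun _ => W))) := by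
    refine h.trans ?_
    refine congrArg₂ (· + ·) (congrArg M t1) (congrArg₂ (· + ·) (congrArg M t2) ?_)
    exact Finset.sum_congr rfl fun A _ => congrArg M (t3 A)
  rw [h']
  ring

theorem NLO_bound {n : ℕ} (M : ContinuousMultilinearMap ℝ (fun _ : Fin n => X) ℝ)
    (S : Finset (Fin n)) (v : Fin n → X) : ∃ B : ℝ, 0 ≤ B ∧ ∀ W : X, ‖W‖ ≤ 1 →
      M (S.piecewise v (fun _ => W)) ≤ B := by
  refine ⟨‖M‖ * ∏ i, (1 + ‖v i‖), by positivity, fun W hW => ?_⟩
  refine (le_abs_self _).trans ?_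
  rw [← Real.norm_eq_abs]
  refine (M.le_opNorm _).trans ?_
  refine mul_le_mul_of_nonneg_left ?_ (norm_nonneg _)
  refine Finset.prod_le_prod (fun i _ => norm_nonneg _) fun i _ => ?_
  by_cases hi : i ∈ S
  · rw [Finset.piecewise_eq_of_mem _ _ _ hi]
    linarith [norm_nonneg (v i)]
  · rw [Finset.piecewise_eq_of_notMem _ _ _ hi]
    linarith [norm_nonneg (v i)]

/-- the step of the induction: the upper bound -/
theorem NLO_upper {p : ℝ} (hp : 1 ≤ p) {g : ℕ → X} (hg : IsBlk p g) {n : ℕ}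
    (M : ContinuousMultilinearMap ℝ (fun _ : Fin n => X) ℝ) (S : Finset (Fin n)) (v : Fin n → X)
    (h1 : 1 ≤ Sᶜ.card) (h2 : ((Sᶜ.card : ℕ) : ℝ) < p)
    (ih : ∀ (S' : Finset (Fin n)) (v' : Fin n → X), 1 ≤ S'ᶜ.card → S'ᶜ.card < Sᶜ.card →
      Null g (fun W => M (S'.piecewise v' (fun _ => W)))) (η : ℝ) (hη : 0 < η) :
    ∃ N, ∀ V ∈ st g N, ‖V‖ ≤ 1 → M (S.piecewise v (fun _ => V)) ≤ η := by
  have hp0 : 0 < p := lt_of_lt_of_le one_pos hp
  set q : X → ℝ := fun W => M (S.piecewise v (fun _ => W)) with hq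
  set T : Set ℝ := {c | 0 ≤ c ∧ ∃ N, ∀ V ∈ st g N, ‖V‖ ≤ 1 → q V ≤ c} with hT
  have hTne : T.Nonempty := by
    obtain ⟨B, hB0, hB⟩ := NLO_bound M S v
    exact ⟨B, hB0, 0, fun V _ hV => hB V hV⟩
  have hTb : BddBelow T := ⟨0, fun c hc => hc.1⟩
  have ha0 : 0 ≤ sInf T := le_csInf hTne fun c hc => hc.1
  rcases ha0.eq_or_lt with ha | ha
  · obtain ⟨c, hc, hcη⟩ := exists_lt_of_csInf_lt hTne (show sInf T < η by rw [← ha]; exact hη)
    obtain ⟨N, hN⟩ := hc.2
    exact ⟨N, fun V hV hV1 => (hN V hV hV1).trans hcη.le⟩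
  · exfalso
    set a : ℝ := sInf T with haT
    set lam : ℝ := 2 ^ p⁻¹ with hlam
    have hlam0 : 0 < lam := Real.rpow_pos_of_pos two_pos _
    set L : ℝ := lam ^ (Sᶜ.card) with hL
    have hL0 : 0 < L := pow_pos hlam0 _
    have hL2 : L < 2 := by
      rw [hL, hlam, ← Real.rpow_mul_natCast two_pos.le]
      have e1 : p⁻¹ * ((Sᶜ.card : ℕ) : ℝ) < 1 := by
        rw [inv_mul_lt_iff₀ hp0, mul_one]
        exact h2
      calc (2 : ℝ) ^ (p⁻¹ * ((Sᶜ.card : ℕ) : ℝ)) < (2 : ℝ) ^ (1 : ℝ) :=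
            Real.rpow_lt_rpow_of_exponent_lt one_lt_two e1
        _ = 2 := Real.rpow_one 2
    set δ : ℝ := (2 - L) / (L + 4) with hδ
    have hδ0 : 0 < δ := div_pos (by linarith) (by linarith)
    have hδ1 : δ < 1 := by
      rw [hδ, div_lt_one (by linarith)]
      linarith
    have hδm : δ * (L + 4) = 2 - L := div_mul_cancel₀ _ (by linarith)
    have hkey : (1 + δ) * L < 2 - 3 * δ := by nlinarith
    obtain ⟨c, hc, hca⟩ := exists_lt_of_csInf_lt hTne
      (show sInf T < (1 + δ) * a by rw [← haT]; nlinarith)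
    obtain ⟨N, hN⟩ := hc.2
    have hN' : ∀ V ∈ st g N, ‖V‖ ≤ 1 → q V ≤ (1 + δ) * a :=
      fun V hV hV1 => (hN V hV hV1).trans hca.le
    have hnot : ∀ m : ℕ, ∃ V ∈ st g m, ‖V‖ ≤ 1 ∧ (1 - δ) * a < q V := by
      intro m
      by_contra hcon
      push Not at hcon
      have hmem : (1 - δ) * a ∈ T :=
        ⟨mul_nonneg (by linarith) ha.le, m, fun V hV hV1 => hcon V hV hV1⟩
      have := csInf_le hTb hmem
      rw [← haT] at this
      nlinarith
    obtain ⟨V, hV, hV1, hVq⟩ := hnot N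
    obtain ⟨m, hm, hVm⟩ := st_bdd hV
    have hmix : Null g (fun W => ∑ A ∈ (Sᶜ.powerset.erase ∅).erase Sᶜ,
          M ((S ∪ A).piecewise (A.piecewise (fun _ => V) v) (fun _ => W))) := by
      refine NLO_null_sum _ (fun A W =>
        M ((S ∪ A).piecewise (A.piecewise (fun _ => V) v) (fun _ => W))) fun A hA => ?_
      have hA1 : A ≠ Sᶜ := (Finset.mem_erase.mp hA).1
      have hA2 : A ≠ ∅ := (Finset.mem_erase.mp (Finset.mem_erase.mp hA).2).1
      have hA3 : A ⊆ Sᶜ :=
        Finset.mem_powerset.mp (Finset.mem_erase.mp (Finset.mem_erase.mp hA).2).2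
      have hcompl : (S ∪ A)ᶜ = Sᶜ \ A := by
        ext i
        simp only [Finset.mem_compl, Finset.mem_union, Finset.mem_sdiff, not_or]
      refine ih (S ∪ A) _ ?_ ?_
      · rw [hcompl]
        refine Finset.card_pos.mpr ?_
        rw [Finset.sdiff_nonempty]
        intro hsub
        exact hA1 (Finset.Subset.antisymm hA3 hsub)
      · rw [hcompl]
        refine Finset.card_lt_card ?_
        refine Finset.sdiff_ssubset hA3 (Finset.nonempty_iff_ne_empty.mpr hA2)
    obtain ⟨n1, hn1⟩ := hmix (δ * a) (mul_pos hδ0 ha)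
    obtain ⟨W, hW, hW1, hWq⟩ := hnot (max m n1)
    have hWN : W ∈ st g N := st_mono (hm.trans (le_max_left _ _)) hW
    have hWm : W ∈ st g m := st_mono (le_max_left _ _) hW
    have hmixW := hn1 W (st_mono (le_max_right _ _) hW) hW1
    have hexp := NLO_expand M S v h1 V W
    have hlow : (2 - 3 * δ) * a < q (V + W) := by
      have hexp' : q (V + W) = q V + q W + ∑ A ∈ (Sᶜ.powerset.erase ∅).erase Sᶜ,
          M ((S ∪ A).piecewise (A.piecewise (fun _ => V) v) (fun _ => W)) := hexp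
      have habs := (abs_le.mp hmixW).1
      rw [hexp']
      linarith
    have hspan : V ∈ Submodule.span ℝ (g '' Set.Iio m) :=
      Submodule.span_mono (Set.image_mono fun k hk => hk.2) hVm
    have hsplit := blk_split hp0 hg hspan (subset_closure hWm)
    have hVp : ‖V‖ ^ p ≤ 1 := Real.rpow_le_one (norm_nonneg _) hV1 hp0.le
    have hWp : ‖W‖ ^ p ≤ 1 := Real.rpow_le_one (norm_nonneg _) hW1 hp0.le
    have hnorm : ‖V + W‖ ≤ lam := by
      rw [hlam, Real.le_rpow_inv_iff_of_pos (norm_nonneg _) two_pos.le hp0, hsplit]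
      linarith
    have hYmem : lam⁻¹ • (V + W) ∈ st g N :=
      Submodule.smul_mem _ _ (Submodule.add_mem _ hV hWN)
    have hY1 : ‖lam⁻¹ • (V + W)‖ ≤ 1 := by
      rw [norm_smul, Real.norm_of_nonneg (inv_nonneg.mpr hlam0.le), inv_mul_le_iff₀ hlam0, mul_one]
      exact hnorm
    have hYq := hN' _ hYmem hY1
    have hsm := NLO_smul M S v lam (lam⁻¹ • (V + W))
    rw [smul_inv_smul₀ hlam0.ne'] at hsm
    have hup : q (V + W) ≤ L * ((1 + δ) * a) := by
      have hsm' : q (V + W) = L * q (lam⁻¹ • (V + W)) := hsm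
      rw [hsm']
      exact mul_le_mul_of_nonneg_left hYq hL0.le
    nlinarith

theorem NLO_main {p : ℝ} (hp : 1 ≤ p) {g : ℕ → X} (hg : IsBlk p g) {n : ℕ} (d : ℕ) :
    ∀ (M : ContinuousMultilinearMap ℝ (fun _ : Fin n => X) ℝ) (S : Finset (Fin n)) (v : Fin n → X),
    Sᶜ.card = d → 1 ≤ Sᶜ.card → ((Sᶜ.card : ℕ) : ℝ) < p →
    Null g (fun W => M (S.piecewise v (fun _ => W))) := by
  induction d using Nat.strong_induction_on with
  | _ d ih =>
    intro M S v hd h1 h2
    have hih : ∀ (M' : ContinuousMultilinearMap ℝ (fun _ : Fin n => X) ℝ)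
        (S' : Finset (Fin n)) (v' : Fin n → X), 1 ≤ S'ᶜ.card → S'ᶜ.card < Sᶜ.card →
        Null g (fun W => M' (S'.piecewise v' (fun _ => W))) := by
      intro M' S' v' h1' h2'
      refine ih (S'ᶜ.card) (by omega) M' S' v' rfl h1' ?_
      have : ((S'ᶜ.card : ℕ) : ℝ) < ((Sᶜ.card : ℕ) : ℝ) := by exact_mod_cast h2'
      linarith
    intro η hη
    obtain ⟨N, hN⟩ := NLO_upper hp hg M S v h1 h2 (hih M) η hη
    obtain ⟨N', hN'⟩ := NLO_upper hp hg (-M) S v h1 h2 (hih (-M)) η hη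
    refine ⟨max N N', fun V hV hV1 => ?_⟩
    have e1 := hN V (st_mono (le_max_left _ _) hV) hV1
    have e2 := hN' V (st_mono (le_max_right _ _) hV) hV1
    rw [neg_apply] at e2
    exact abs_le.mpr ⟨by linarith, e1⟩

theorem null_low {p : ℝ} (hp : 1 ≤ p) {g : ℕ → X} (hg : IsBlk p g) {n : ℕ}
    (M : ContinuousMultilinearMap ℝ (fun _ : Fin n => X) ℝ) (S : Finset (Fin n)) (v : Fin n → X)
    (h1 : 1 ≤ Sᶜ.card) (h2 : ((Sᶜ.card : ℕ) : ℝ) < p) :
    Null g (fun W => M (S.piecewise v (fun _ => W))) :=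
  NLO_main hp hg (Sᶜ.card) M S v rfl h1 h2

end GS
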