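import Pool.Agent.H53.GS.NLO

/-!
# Module ODD: the form of degree `p`, `p` odd

Let `m V = M (fun _ => V)`.
`odd_add` (asymptotic additivity, uniform on finite dimensional balls): for `V` fixed,
`m (V+W) - m V - m W = ∑_{A ≠ ∅, univ} M (A.piecewise (fun _ => V) (fun _ => W))` (`MultilinearMap.map_add_univ`)
is null in `W` by `null_low` (`card Aᶜ < n = p`, `card Aᶜ ≥ 1`). Uniformity: otherwise there are `η > 0`,
`V_N` in the unit ball of the finite dimensional space `E = span (g '' Iio n₀)` and `W_N ∈ st g N`, `‖W_N‖ ≤ 1`, with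
`|m (V_N+W_N) - m V_N - m W_N| > η` for all `N`; the unit ball of `E` is compact, so a subsequence of `V_N` tends to
`V ∈ E`, and `m` is Lipschitz on bounded sets (`ContinuousMultilinearMap.norm_image_sub_le`), contradiction.
`odd_ref`: choose `i_0 < i_1 < ...` recursively such that for `h_k = g (i_k)`: for all
`V ∈ span (g '' Iio (i_{k-1}+1))`, `W ∈ st g i_k` of norm `≤ 1`: `|m (V+W) - m V - m W| ≤ 2^-k`; the bounded sequence
`m (g i)` has a convergent subsequence, so wlog (pass to a subsequence first or at the end) `m (h_k) → θ`. Then for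
real `b_j` with `‖∑ b_j h_j‖ ≤ 1`, adding one term at a time,
`|m (∑_{N ≤ j < K} b_j h_j) - ∑_{N ≤ j < K} b_j^n m (h_j)| ≤ ∑_{j ≥ N} 2^-j = 2^(1-N)`.
Put `λ = 2^(-1/n)`, `g' k = λ • (h_{2k} - h_{2k+1})`. `IsBlk n g'`: `‖∑ c_k g'_k‖^n = ∑ 2 λ^n |c_k|^n`. `Ref g g'`:
`i_{2k} ≥ k`. `Null`: for `V = ∑_{k ≥ N} c_k g'_k`, `‖V‖ ≤ 1`:
`m V = ∑ λ^n c_k^n (m h_{2k} - m h_{2k+1}) + O(2^(1-2N))` because `n` is odd, and
`|∑ λ^n c_k^n (m h_{2k} - m h_{2k+1})| ≤ sup_{k ≥ N} |m h_{2k} - m h_{2k+1}| * ∑ |c_k|^n → 0`.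
-/

set_option autoImplicit false

open scoped BigOperators Topology

namespace GS

variable {X : Type*} [NormedAddCommGroup X] [NormedSpace ℝ X]

theorem ODD_null_add {g : ℕ → X} {q q' : X → ℝ} (h : Null g q) (h' : Null g q') :
    Null g (fun V => q V + q' V) := by
  intro η hη
  obtain ⟨N, hN⟩ := h (η / 2) (by positivity)
  obtain ⟨N', hN'⟩ := h' (η / 2) (by positivity)
  refine ⟨max N N', fun V hV hV1 => ?_⟩
  have h1 := hN V (st_mono (le_max_left _ _) hV) hV1
  have h2 := hN' V (st_mono (le_max_right _ _) hV) hV1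
  calc |q V + q' V| ≤ |q V| + |q' V| := abs_add_le _ _
    _ ≤ η := by linarith

theorem ODD_null_sum {ι : Type*} {g : ℕ → X} (s : Finset ι) (q : ι → X → ℝ)
    (h : ∀ i ∈ s, Null g (q i)) : Null g (fun V => ∑ i ∈ s, q i V) := by
  classical
  induction s using Finset.induction_on with
  | empty =>
    intro η hη
    exact ⟨0, fun _ _ _ => by simpa using hη.le⟩
  | insert a s ha ih =>
    have h1 := ODD_null_add (h a (Finset.mem_insert_self a s))
      (ih fun i hi => h i (Finset.mem_insert_of_mem hi))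
    simp only [Finset.sum_insert ha]
    exact h1

theorem ODD_add_fixed {n : ℕ} (hn : 1 ≤ n) {g : ℕ → X} (hg : IsBlk (n : ℝ) g)
    (M : ContinuousMultilinearMap ℝ (fun _ : Fin n => X) ℝ) (V : X) :
    Null g (fun W => M (fun _ => V + W) - M (fun _ => V) - M (fun _ => W)) := by
  have hne : (Finset.univ : Finset (Fin n)) ≠ ∅ := by
    have : Nonempty (Fin n) := ⟨⟨0, hn⟩⟩
    exact Finset.univ_nonempty.ne_empty
  have h1 : ∀ W, M (fun _ => V + W) - M (fun _ => V) - M (fun _ => W) =
      ∑ s ∈ ((Finset.univ : Finset (Finset (Fin n))).erase ∅).erase Finset.univ,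
        M (s.piecewise (fun _ => V) (fun _ => W)) := by
    intro W
    have h2 : M (fun _ => V + W) = ∑ s : Finset (Fin n), M (s.piecewise (fun _ => V) (fun _ => W)) :=
      M.toMultilinearMap.map_add_univ (fun _ => V) (fun _ => W)
    rw [← Finset.add_sum_erase _ _ (Finset.mem_univ ∅), ← Finset.add_sum_erase _ _
      (Finset.mem_erase.2 ⟨hne, Finset.mem_univ Finset.univ⟩), Finset.piecewise_empty,
      Finset.piecewise_univ] at h2
    rw [h2]
    ring
  have h3 := ODD_null_sum (g := g)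
    (((Finset.univ : Finset (Finset (Fin n))).erase ∅).erase Finset.univ)
    (fun s W => M (s.piecewise (fun _ => V) (fun _ => W))) (by
      intro s hs
      rw [Finset.mem_erase, Finset.mem_erase] at hs
      have hs1 : s.card ≠ 0 := fun h => hs.2.1 (Finset.card_eq_zero.1 h)
      have hs2 : s.card < n := by
        have := Finset.card_lt_univ_of_notMem (s := s) (x := (by
          have : ∃ x, x ∉ s := by
            by_contra hcon
            push Not at hcon
            exact hs.1 (Finset.eq_univ_of_forall hcon)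
          exact this.choose)) (by
          have : ∃ x, x ∉ s := by
            by_contra hcon
            push Not at hcon
            exact hs.1 (Finset.eq_univ_of_forall hcon)
          exact this.choose_spec)
        simpa using this
      have hc : sᶜ.card = n - s.card := by
        rw [Finset.card_compl, Fintype.card_fin]
      refine null_low (by exact_mod_cast hn) hg M s (fun _ => V) (by omega) ?_
      have : sᶜ.card < n := by omega
      exact_mod_cast this)
  intro η hη
  obtain ⟨N, hN⟩ := h3 η hη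
  refine ⟨N, fun W hW hW1 => ?_⟩
  show |M (fun _ => V + W) - M (fun _ => V) - M (fun _ => W)| ≤ η
  rw [h1]
  exact hN W hW hW1

theorem ODD_lip {n : ℕ} (M : ContinuousMultilinearMap ℝ (fun _ : Fin n => X) ℝ) {A B : X}
    (hA : ‖A‖ ≤ 2) (hB : ‖B‖ ≤ 2) :
    |M (fun _ => A) - M (fun _ => B)| ≤ ‖M‖ * n * 2 ^ (n - 1) * ‖A - B‖ := by
  have h1 := M.norm_image_sub_le (fun _ => A) (fun _ => B)
  rw [Fintype.card_fin, Real.norm_eq_abs] at h1
  refine h1.trans ?_
  have h2 : ‖(fun _ : Fin n => A)‖ ≤ 2 := (pi_norm_const_le A).trans hA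
  have h3 : ‖(fun _ : Fin n => B)‖ ≤ 2 := (pi_norm_const_le B).trans hB
  have h4 : ‖(fun _ : Fin n => A) - (fun _ : Fin n => B)‖ ≤ ‖A - B‖ :=
    pi_norm_const_le (A - B)
  have h5 : max ‖(fun _ : Fin n => A)‖ ‖(fun _ : Fin n => B)‖ ^ (n - 1) ≤ 2 ^ (n - 1) :=
    pow_le_pow_left₀ (le_max_of_le_left (norm_nonneg _)) (max_le h2 h3) _
  have h6 : 0 ≤ ‖M‖ * n := by positivity
  calc ‖M‖ * ↑n * max ‖(fun _ : Fin n => A)‖ ‖(fun _ : Fin n => B)‖ ^ (n - 1) *
        ‖(fun _ : Fin n => A) - (fun _ : Fin n => B)‖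
      ≤ ‖M‖ * ↑n * 2 ^ (n - 1) * ‖A - B‖ :=
        mul_le_mul (mul_le_mul_of_nonneg_left h5 h6) h4 (norm_nonneg _) (by positivity)

theorem odd_add {n : ℕ} (hn : 1 ≤ n) {g : ℕ → X} (hg : IsBlk (n : ℝ) g)
    (M : ContinuousMultilinearMap ℝ (fun _ : Fin n => X) ℝ) (n₀ : ℕ) {η : ℝ} (hη : 0 < η) :
    ∃ N : ℕ, ∀ V ∈ Submodule.span ℝ (g '' Set.Iio n₀), ‖V‖ ≤ 1 → ∀ W ∈ st g N, ‖W‖ ≤ 1 →
      |M (fun _ => V + W) - M (fun _ => V) - M (fun _ => W)| ≤ η := by
  set E : Submodule ℝ X := Submodule.span ℝ (g '' Set.Iio n₀) with hE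
  have hfin : FiniteDimensional ℝ E := FiniteDimensional.span_of_finite ℝ ((Set.finite_Iio n₀).image g)
  have hK : IsCompact ((Subtype.val : E → X) '' Metric.closedBall (0 : E) 1) :=
    (isCompact_closedBall (0 : E) 1).image continuous_subtype_val
  have hKm : ∀ V : X, V ∈ (Subtype.val : E → X) '' Metric.closedBall (0 : E) 1 → ‖V‖ ≤ 1 := by
    rintro _ ⟨v, hv, rfl⟩
    rw [mem_closedBall_zero_iff] at hv
    exact hv
  set D : ℝ := ‖M‖ * n * 2 ^ (n - 1) with hD
  have hD0 : 0 ≤ D := by positivity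
  have key : ∃ N : ℕ, ∀ V ∈ (Subtype.val : E → X) '' Metric.closedBall (0 : E) 1,
      ‖V‖ ≤ 1 → ∀ W ∈ st g N, ‖W‖ ≤ 1 →
      |M (fun _ => V + W) - M (fun _ => V) - M (fun _ => W)| ≤ η := by
    refine hK.induction_on (p := fun S => ∃ N : ℕ, ∀ V ∈ S, ‖V‖ ≤ 1 → ∀ W ∈ st g N, ‖W‖ ≤ 1 →
      |M (fun _ => V + W) - M (fun _ => V) - M (fun _ => W)| ≤ η) ?_ ?_ ?_ ?_
    · exact ⟨0, fun V hV => absurd hV (Set.notMem_empty V)⟩
    · rintro s t hst ⟨N, hN⟩
      exact ⟨N, fun V hV => hN V (hst hV)⟩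
    · rintro s t ⟨N, hN⟩ ⟨N', hN'⟩
      refine ⟨max N N', ?_⟩
      rintro V (hV | hV) hV1 W hW hW1
      · exact hN V hV hV1 W (st_mono (le_max_left _ _) hW) hW1
      · exact hN' V hV hV1 W (st_mono (le_max_right _ _) hW) hW1
    · intro V hV
      obtain ⟨N, hN⟩ := ODD_add_fixed hn hg M V (η / 2) (by positivity)
      refine ⟨{V' | ‖V' - V‖ < η / (4 * (D + 1))}, ?_, N, ?_⟩
      · refine mem_nhdsWithin_of_mem_nhds ?_
        have : {V' : X | ‖V' - V‖ < η / (4 * (D + 1))} = Metric.ball V (η / (4 * (D + 1))) := by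
          ext V'
          simp [dist_eq_norm]
        rw [this]
        exact Metric.ball_mem_nhds V (by positivity)
      · intro V' hV' hV'1 W hW hW1
        have hV1 := hKm V hV
        have hV'2 : ‖V' - V‖ < η / (4 * (D + 1)) := hV'
        have e1 := ODD_lip M (A := V' + W) (B := V + W) ((norm_add_le _ _).trans (by linarith))
          ((norm_add_le _ _).trans (by linarith))
        have e2 := ODD_lip M (A := V') (B := V) (by linarith) (by linarith)
        rw [add_sub_add_right_eq_sub] at e1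
        have e3 := hN W hW hW1
        have e4 : D * ‖V' - V‖ ≤ η / 4 := by
          have h5 : D * ‖V' - V‖ ≤ (D + 1) * (η / (4 * (D + 1))) :=
            mul_le_mul (by linarith) hV'2.le (norm_nonneg _) (by linarith)
          have h6 : (D + 1) * (η / (4 * (D + 1))) = η / 4 := by field_simp
          linarith
        rw [← hD] at e1 e2
        have e5 := abs_le.1 e1
        have e6 := abs_le.1 e2
        have e7 := abs_le.1 e3
        rw [abs_le]
        constructor <;> linarith [e5.1, e5.2, e6.1, e6.2, e7.1, e7.2]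
  obtain ⟨N, hN⟩ := key
  refine ⟨N, fun V hV hV1 W hW hW1 => hN V ⟨⟨V, hV⟩, ?_, rfl⟩ hV1 W hW hW1⟩
  rw [mem_closedBall_zero_iff]
  exact hV1

/-- sums over pairs -/
theorem ODD_pairs {A : Type*} [AddCommMonoid A] (f : ℕ → A) (N K : ℕ) (h : N ≤ K) :
    ∑ j ∈ Finset.Ico (2 * N) (2 * K), f j = ∑ k ∈ Finset.Ico N K, (f (2 * k) + f (2 * k + 1)) := by
  induction K, h using Nat.le_induction with
  | base => simp
  | succ K hK ih =>
    rw [Finset.sum_Ico_succ_top hK, ← ih, show 2 * (K + 1) = 2 * K + 1 + 1 by ring,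
      Finset.sum_Ico_succ_top (by omega), Finset.sum_Ico_succ_top (by omega), add_assoc]

/-- a finite combination as a sum over an interval -/
theorem ODD_range (h : ℕ → X) (F : Finset ℕ) (b : ℕ → ℝ) (N K : ℕ) (hF : ∀ k ∈ F, N ≤ k ∧ k < K) :
    ∑ k ∈ F, b k • h k = ∑ k ∈ Finset.Ico N K, (if k ∈ F then b k else 0) • h k := by
  have h1 : ∀ k ∈ F, b k • h k = (if k ∈ F then b k else 0) • h k := fun k hk => by rw [if_pos hk]
  rw [Finset.sum_congr rfl h1]
  refine Finset.sum_subset (fun k hk => Finset.mem_Ico.2 (hF k hk)) fun k _ hk => ?_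
  rw [if_neg hk, zero_smul]

theorem ODD_blk_sub {p : ℝ} {g : ℕ → X} (hg : IsBlk p g) {i : ℕ → ℕ} (hi : Function.Injective i) :
    IsBlk p (fun k => g (i k)) := by
  intro F b
  have h1 := hg (F.image i) (fun l => b (Function.invFun i l))
  rw [Finset.sum_image fun x _ y _ hxy => hi hxy, Finset.sum_image fun x _ y _ hxy => hi hxy] at h1
  simp only [Function.leftInverse_invFun hi _] at h1
  exact h1

theorem odd_ref {n : ℕ} (hn : Odd n) {g : ℕ → X} (hg : IsBlk (n : ℝ) g)
    (M : ContinuousMultilinearMap ℝ (fun _ : Fin n => X) ℝ) :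
    ∃ g' : ℕ → X, Ref g g' ∧ IsBlk (n : ℝ) g' ∧ Null g' (fun V => M (fun _ => V)) := by
  have hn1 : 1 ≤ n := hn.pos
  have hn0 : n ≠ 0 := by omega
  have hnR : (0 : ℝ) < n := by exact_mod_cast hn.pos
  have hgn : ∀ k, ‖g k‖ = 1 := fun k => blk_norm hnR hg k
  have hM0 : M (fun _ => (0 : X)) = 0 := M.map_coord_zero ⟨0, hn.pos⟩ rfl
  -- convergent subsequence
  obtain ⟨θ, -, φ, hφ, hθ⟩ := tendsto_subseq_of_bounded (s := Metric.closedBall (0 : ℝ) ‖M‖)
    Metric.isBounded_closedBall (x := fun k => M (fun _ => g k)) (fun k => by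
      rw [mem_closedBall_zero_iff]
      refine (M.le_opNorm _).trans ?_
      rw [Finset.prod_congr rfl fun i _ => hgn k, Finset.prod_const_one, mul_one])
  -- the indices
  choose F hF using fun (k n₀ : ℕ) => odd_add hn1 hg M n₀ (η := (1 / 2 : ℝ) ^ (k + 1)) (by positivity)
  set J : ℕ → ℕ := fun k => Nat.rec 0 (fun k j => j + 1 + F k (φ j + 1)) k with hJ
  have hJs : ∀ k, J (k + 1) = J k + 1 + F k (φ (J k) + 1) := fun k => rfl
  have hJm : StrictMono J := strictMono_nat_of_lt_succ fun k => by rw [hJs]; omega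
  set i : ℕ → ℕ := fun k => φ (J k) with hi
  have him : StrictMono i := hφ.comp hJm
  have hiF : ∀ k, F k (i k + 1) ≤ i (k + 1) := by
    intro k
    have h1 : J (k + 1) ≤ φ (J (k + 1)) := hφ.le_apply
    have h2 := hJs k
    simp only [hi]
    omega
  set h : ℕ → X := fun k => g (i k) with hh
  have hblk : IsBlk (n : ℝ) h := ODD_blk_sub hg him.injective
  have hθ' : Filter.Tendsto (fun k => M (fun _ => h k)) Filter.atTop (𝓝 θ) :=
    hθ.comp hJm.tendsto_atTop
  -- additivity
  have hadd : ∀ (b : ℕ → ℝ) (N K : ℕ), N ≤ K → ∑ j ∈ Finset.Ico N K, |b j| ^ n ≤ 1 →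
      |M (fun _ => ∑ j ∈ Finset.Ico N K, b j • h j) - ∑ j ∈ Finset.Ico N K, b j ^ n * M (fun _ => h j)| ≤
        ∑ j ∈ Finset.Ico N K, (1 / 2 : ℝ) ^ j := by
    intro b N K hNK
    induction K, hNK using Nat.le_induction with
    | base => intro _; simp [hM0]
    | succ K hK ih =>
      intro hb
      rw [Finset.sum_Ico_succ_top hK] at hb
      have hb1 : ∑ j ∈ Finset.Ico N K, |b j| ^ n ≤ 1 := by
        have : 0 ≤ |b K| ^ n := by positivity
        linarith
      have hb2 : |b K| ^ n ≤ 1 := by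
        have : 0 ≤ ∑ j ∈ Finset.Ico N K, |b j| ^ n := Finset.sum_nonneg fun _ _ => by positivity
        linarith
      have ih' := ih hb1
      rw [Finset.sum_Ico_succ_top hK, Finset.sum_Ico_succ_top hK, Finset.sum_Ico_succ_top hK]
      set V : X := ∑ j ∈ Finset.Ico N K, b j • h j with hV
      set W : X := b K • h K with hW
      have hMW : M (fun _ => W) = b K ^ n * M (fun _ => h K) := by
        have := M.map_smul_univ (fun _ => b K) (fun _ => h K)
        rw [Finset.prod_const, Finset.card_univ, Fintype.card_fin, smul_eq_mul] at this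
        exact this
      have herr : |M (fun _ => V + W) - M (fun _ => V) - M (fun _ => W)| ≤ (1 / 2 : ℝ) ^ K := by
        rcases Nat.eq_zero_or_pos K with h0 | h0
        · have hN0 : N = 0 := by omega
          have hV0 : V = 0 := by rw [hV, h0, hN0]; simp
          rw [hV0, zero_add, hM0]
          simp only [sub_zero, sub_self, abs_zero]
          positivity
        · obtain ⟨K', rfl⟩ : ∃ K', K = K' + 1 := ⟨K - 1, by omega⟩
          refine hF K' (i K' + 1) V ?_ ?_ W ?_ ?_
          · rw [hV]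
            refine Submodule.sum_mem _ fun j hj => Submodule.smul_mem _ _ (Submodule.subset_span ?_)
            rw [Finset.mem_Ico] at hj
            refine ⟨i j, ?_, rfl⟩
            have := him.monotone (show j ≤ K' by omega)
            rw [Set.mem_Iio]
            omega
          · have h1 := hblk (Finset.Ico N (K' + 1)) b
            simp only [Real.rpow_natCast] at h1
            rw [← hV] at h1
            by_contra hcon
            push Not at hcon
            have h2 : 1 < ‖V‖ ^ n := one_lt_pow₀ hcon hn0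
            rw [h1] at h2
            linarith
          · rw [hW]
            refine Submodule.smul_mem _ _ (Submodule.subset_span ⟨i (K' + 1), ?_, rfl⟩)
            exact hiF K'
          · rw [hW, norm_smul, Real.norm_eq_abs, hh]
            simp only [hgn, mul_one]
            by_contra hcon
            push Not at hcon
            have h2 : 1 < |b (K' + 1)| ^ n := one_lt_pow₀ hcon hn0
            linarith
      rw [hMW] at herr
      have e1 := abs_le.1 ih'
      have e2 := abs_le.1 herr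
      rw [abs_le]
      constructor <;> linarith [e1.1, e1.2, e2.1, e2.2]
  have hgeo : ∀ N K : ℕ, ∑ j ∈ Finset.Ico N K, (1 / 2 : ℝ) ^ j ≤ 2 * (1 / 2 : ℝ) ^ N := by
    intro N K
    rcases le_or_gt N K with h1 | h1
    · have h2 : ∑ j ∈ Finset.Ico N K, (1 / 2 : ℝ) ^ j = 2 * (1 / 2 : ℝ) ^ N - 2 * (1 / 2 : ℝ) ^ K := by
        induction K, h1 using Nat.le_induction with
        | base => simp
        | succ K hK ih =>
          rw [Finset.sum_Ico_succ_top hK, ih, pow_succ]
          ring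
      rw [h2]
      have : (0 : ℝ) ≤ (1 / 2 : ℝ) ^ K := by positivity
      linarith
    · rw [Finset.Ico_eq_empty (by omega), Finset.sum_empty]
      positivity
  -- the refinement
  set lam : ℝ := (1 / 2 : ℝ) ^ ((n : ℝ)⁻¹) with hlam
  have hlam0 : 0 < lam := by positivity
  have hlamn : lam ^ n = 1 / 2 := by
    rw [hlam, ← Real.rpow_natCast, ← Real.rpow_mul (by norm_num), inv_mul_cancel₀ hnR.ne', Real.rpow_one]
  set g' : ℕ → X := fun k => lam • (h (2 * k) - h (2 * k + 1)) with hg'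
  set B : (ℕ → ℝ) → ℕ → ℝ := fun c j => if Even j then lam * c (j / 2) else -(lam * c (j / 2)) with hB
  have hB0 : ∀ c k, B c (2 * k) = lam * c k := by
    intro c k
    simp [hB]
  have hB1 : ∀ c k, B c (2 * k + 1) = -(lam * c k) := by
    intro c k
    have h1 : ¬ Even (2 * k + 1) := by simp
    simp only [hB, if_neg h1]
    rw [show (2 * k + 1) / 2 = k by omega]
  have hsum : ∀ (c : ℕ → ℝ) (N K : ℕ), N ≤ K →
      ∑ k ∈ Finset.Ico N K, c k • g' k = ∑ j ∈ Finset.Ico (2 * N) (2 * K), B c j • h j := by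
    intro c N K hNK
    rw [ODD_pairs (fun j => B c j • h j) N K hNK]
    refine Finset.sum_congr rfl fun k _ => ?_
    rw [hB0, hB1, hg']
    module
  have hpow : ∀ (c : ℕ → ℝ) (N K : ℕ), N ≤ K →
      ∑ j ∈ Finset.Ico (2 * N) (2 * K), |B c j| ^ n = ∑ k ∈ Finset.Ico N K, |c k| ^ n := by
    intro c N K hNK
    rw [ODD_pairs (fun j => |B c j| ^ n) N K hNK]
    refine Finset.sum_congr rfl fun k _ => ?_
    rw [hB0, hB1, abs_neg, abs_mul, mul_pow, abs_of_pos hlam0, hlamn]
    ring
  have hblk' : IsBlk (n : ℝ) g' := by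
    intro F' b
    obtain ⟨K, hK⟩ : ∃ K, ∀ k ∈ F', k < K := ⟨F'.sup id + 1, fun k hk =>
      Nat.lt_succ_of_le (Finset.le_sup (f := id) hk)⟩
    simp only [Real.rpow_natCast]
    rw [ODD_range g' F' b 0 K fun k hk => ⟨Nat.zero_le _, hK k hk⟩, hsum _ 0 K (Nat.zero_le _)]
    have h1 := hblk (Finset.Ico (2 * 0) (2 * K)) (B fun k => if k ∈ F' then b k else 0)
    simp only [Real.rpow_natCast] at h1
    refine h1.trans ((hpow (fun k => if k ∈ F' then b k else 0) 0 K (Nat.zero_le _)).trans ?_)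
    have h2 : ∀ k ∈ F', |b k| ^ n = |if k ∈ F' then b k else 0| ^ n := fun k hk => by rw [if_pos hk]
    rw [Finset.sum_congr rfl h2]
    refine (Finset.sum_subset (fun k hk => Finset.mem_Ico.2 ⟨Nat.zero_le _, hK k hk⟩) fun k _ hk => ?_).symm
    rw [if_neg hk, abs_zero, zero_pow hn0]
  refine ⟨g', ?_, hblk', ?_⟩
  · intro k
    rw [hg']
    refine Submodule.smul_mem _ _ (Submodule.sub_mem _ (Submodule.subset_span ⟨i (2 * k), ?_, rfl⟩)
      (Submodule.subset_span ⟨i (2 * k + 1), ?_, rfl⟩))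
    · have : 2 * k ≤ i (2 * k) := him.le_apply
      rw [Set.mem_Ici]
      omega
    · have : 2 * k + 1 ≤ i (2 * k + 1) := him.le_apply
      rw [Set.mem_Ici]
      omega
  · intro η hη
    have hlim : ∀ᶠ k in Filter.atTop, |M (fun _ => h k) - θ| < η / 4 := by
      have := (Metric.tendsto_nhds.1 hθ') (η / 4) (by positivity)
      simpa only [Real.dist_eq] using this
    have hpw : ∀ᶠ N : ℕ in Filter.atTop, 2 * (1 / 2 : ℝ) ^ N < η / 2 := by
      have h1 : Filter.Tendsto (fun N : ℕ => 2 * (1 / 2 : ℝ) ^ N) Filter.atTop (𝓝 (2 * 0)) :=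
        (tendsto_pow_atTop_nhds_zero_of_lt_one (by norm_num) (by norm_num)).const_mul 2
      rw [mul_zero] at h1
      exact h1.eventually_lt_const (by positivity)
    obtain ⟨N, hN⟩ := Filter.eventually_atTop.1 (hlim.and hpw)
    refine ⟨N, fun V hV hV1 => ?_⟩
    obtain ⟨F', b, hF', rfl⟩ := mem_st_iff.1 hV
    obtain ⟨K0, hK0⟩ : ∃ K, ∀ k ∈ F', k < K := ⟨F'.sup id + 1, fun k hk =>
      Nat.lt_succ_of_le (Finset.le_sup (f := id) hk)⟩
    set K := max N K0 with hKdef
    have hNK : N ≤ K := le_max_left _ _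
    have hFK : ∀ k ∈ F', N ≤ k ∧ k < K := fun k hk => ⟨hF' k hk, (hK0 k hk).trans_le (le_max_right _ _)⟩
    rw [ODD_range g' F' b N K hFK] at hV1 ⊢
    set c : ℕ → ℝ := fun k => if k ∈ F' then b k else 0 with hc
    have hc1 : ∑ k ∈ Finset.Ico N K, |c k| ^ n ≤ 1 := by
      have h1 := hblk' (Finset.Ico N K) c
      simp only [Real.rpow_natCast] at h1
      rw [← h1]
      exact pow_le_one₀ (norm_nonneg _) hV1
    rw [hsum c N K hNK]
    have h2 := hadd (B c) (2 * N) (2 * K) (by omega) (by rw [hpow c N K hNK]; exact hc1)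
    have h3 := hgeo (2 * N) (2 * K)
    have h4 := (hN (2 * N) (by omega)).2
    have h5 : |∑ j ∈ Finset.Ico (2 * N) (2 * K), B c j ^ n * M (fun _ => h j)| ≤ η / 2 := by
      rw [ODD_pairs (fun j => B c j ^ n * M (fun _ => h j)) N K hNK]
      have h6 : ∀ k ∈ Finset.Ico N K, |B c (2 * k) ^ n * M (fun _ => h (2 * k)) +
          B c (2 * k + 1) ^ n * M (fun _ => h (2 * k + 1))| ≤ |c k| ^ n * (η / 2) := by
        intro k hk
        rw [Finset.mem_Ico] at hk
        rw [hB0, hB1, hn.neg_pow, mul_pow, hlamn]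
        have e1 := abs_lt.1 (hN (2 * k) (by omega)).1
        have e2 := abs_lt.1 (hN (2 * k + 1) (by omega)).1
        have e3 : |M (fun _ => h (2 * k)) - M (fun _ => h (2 * k + 1))| ≤ η / 2 := by
          rw [abs_le]
          constructor <;> linarith [e1.1, e1.2, e2.1, e2.2]
        have e4 : 1 / 2 * c k ^ n * M (fun _ => h (2 * k)) +
            -(1 / 2 * c k ^ n) * M (fun _ => h (2 * k + 1)) =
            1 / 2 * (c k ^ n * (M (fun _ => h (2 * k)) - M (fun _ => h (2 * k + 1)))) := by ring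
        rw [e4, abs_mul, abs_mul, abs_pow, abs_of_pos (by norm_num : (0 : ℝ) < 1 / 2)]
        have e5 : 0 ≤ |c k| ^ n := by positivity
        have e6 : |c k| ^ n * |M (fun _ => h (2 * k)) - M (fun _ => h (2 * k + 1))| ≤ |c k| ^ n * (η / 2) :=
          mul_le_mul_of_nonneg_left e3 e5
        have e7 : 0 ≤ |c k| ^ n * (η / 2) := by positivity
        linarith
      calc |∑ k ∈ Finset.Ico N K, (B c (2 * k) ^ n * M (fun _ => h (2 * k)) +
              B c (2 * k + 1) ^ n * M (fun _ => h (2 * k + 1)))|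
          ≤ ∑ k ∈ Finset.Ico N K, |c k| ^ n * (η / 2) :=
            (Finset.abs_sum_le_sum_abs _ _).trans (Finset.sum_le_sum h6)
        _ = (∑ k ∈ Finset.Ico N K, |c k| ^ n) * (η / 2) := by rw [Finset.sum_mul]
        _ ≤ 1 * (η / 2) := mul_le_mul_of_nonneg_right hc1 (by positivity)
        _ = η / 2 := one_mul _
    have e1 := abs_le.1 h2
    have e2 := abs_le.1 h5
    have e3 : ∑ j ∈ Finset.Ico (2 * N) (2 * K), (1 / 2 : ℝ) ^ j ≤ η / 2 := by linarith
    rw [abs_le]
    constructor <;> linarith [e1.1, e1.2, e2.1, e2.2]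

end GS
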