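import Pool.Agent.H53.GS.Defs

/-!
# Module TAY: Taylor expansion along a line

`tay_real`: induction on `k`. `k = 1`: `φ 0` is differentiable at `0`
(`HasDerivAt.isBigO_sub` or the definition). Step `k → k + 1`: apply the induction hypothesis to
`φ (· + 1)`: `|φ 1 t - ∑_{j<k} φ (j+1) 0 t^j / j!| ≤ M |t|^k` for `|t| ≤ δ'` (wlog `δ' < δ`). The function
`ψ t = φ 0 t - ∑_{j<k+1} φ j 0 t^j / j!` has `ψ 0 = 0` and derivative `φ 1 t - ∑_{j<k} φ (j+1) 0 t^j / j!`, so on
`[-|t|, |t|]` its derivative is bounded by `M |t|^k` and the mean value inequality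
(`Convex.norm_image_sub_le_of_norm_hasDerivWithin_le`) gives `|ψ t| ≤ M |t|^(k+1)`.

`tay_gateaux`: put `φ j t = iterDeriv f (List.replicate j h) (x + t • h)`. For `|t| < δ` (`U` open) we have
`x + t • h ∈ U`, and `LineDifferentiableAt ℝ (iterDeriv f (List.replicate j h)) (x + t • h) h` (first part of
`GateauxDiff` with `l = List.replicate j h`, `j + 1 ≤ k`) says
`HasDerivAt (φ j) (φ (j+1) t) t` (shift of the variable: `x + t • h + s • h = x + (t + s) • h`). Moreover
`φ j 0 = M j (fun _ => h)` for `1 ≤ j < k` (`List.ofFn (fun _ : Fin j => h) = List.replicate j h`) and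
`M j (fun _ => t • h) = t ^ j * M j (fun _ => h)` (`ContinuousMultilinearMap.map_smul_univ`), so
`f x + poly k M (t • h) = ∑_{j<k} φ j 0 t^j / j!`.
-/

set_option autoImplicit false

open scoped BigOperators Topology

namespace GS

theorem tay_real (k : ℕ) (hk : 1 ≤ k) (φ : ℕ → ℝ → ℝ) (δ : ℝ) (hδ : 0 < δ)
    (h : ∀ j < k, ∀ t : ℝ, |t| < δ → HasDerivAt (φ j) (φ (j + 1) t) t) :
    ∃ δ' > 0, ∃ M : ℝ, ∀ t : ℝ, |t| ≤ δ' →
      |φ 0 t - ∑ j ∈ Finset.range k, φ j 0 * t ^ j / (j.factorial : ℝ)| ≤ M * |t| ^ k := by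
  induction k, hk using Nat.le_induction generalizing φ with
  | base =>
    have h0 := h 0 (by norm_num) 0 (by simpa using hδ)
    have hO := h0.isBigO_sub
    obtain ⟨C, hC⟩ := hO.bound
    obtain ⟨ε, hε, hb⟩ := Metric.eventually_nhds_iff.1 hC
    refine ⟨ε / 2, by positivity, C, fun t ht => ?_⟩
    have := hb (show dist t 0 < ε by rw [Real.dist_eq, sub_zero]; linarith)
    simpa [Real.norm_eq_abs] using this
  | succ k hk ih =>
    obtain ⟨δ₁, hδ₁, M, hM⟩ := ih (fun j => φ (j + 1)) (fun j hj t ht => h (j + 1) (by omega) t ht)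
    refine ⟨min δ₁ (δ / 2), lt_min hδ₁ (by positivity), M, fun t ht => ?_⟩
    have ht1 : |t| ≤ δ₁ := ht.trans (min_le_left _ _)
    have ht2 : |t| < δ := lt_of_le_of_lt (ht.trans (min_le_right _ _)) (by linarith)
    set ψ : ℝ → ℝ := fun s => φ 0 s - ∑ j ∈ Finset.range (k + 1), φ j 0 * s ^ j / (j.factorial : ℝ)
      with hψ
    have hd : ∀ s ∈ Set.Icc (-|t|) |t|, HasDerivWithinAt ψ
        (φ 1 s - ∑ j ∈ Finset.range k, φ (j + 1) 0 * s ^ j / (j.factorial : ℝ))
        (Set.Icc (-|t|) |t|) s := by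
      intro s hs
      have hs' : |s| < δ := lt_of_le_of_lt (abs_le.2 hs) ht2
      have h1 := h 0 (by omega) s hs'
      have h2 : HasDerivAt (fun s : ℝ => ∑ j ∈ Finset.range (k + 1),
          φ j 0 * s ^ j / (j.factorial : ℝ))
          (∑ j ∈ Finset.range k, φ (j + 1) 0 * s ^ j / (j.factorial : ℝ)) s := by
        have h3 : HasDerivAt (fun s : ℝ => ∑ j ∈ Finset.range (k + 1),
            φ j 0 * s ^ j / (j.factorial : ℝ))
            (∑ j ∈ Finset.range (k + 1), φ j 0 * ((j : ℝ) * s ^ (j - 1)) / (j.factorial : ℝ)) s := by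
          refine HasDerivAt.fun_sum fun j _ => ?_
          exact ((hasDerivAt_pow j s).const_mul _).div_const _
        refine h3.congr_deriv ?_
        rw [Finset.sum_range_succ']
        simp only [Nat.cast_zero, zero_mul, mul_zero, zero_div, add_zero]
        refine Finset.sum_congr rfl fun j _ => ?_
        rw [Nat.factorial_succ, Nat.cast_mul]
        have h4 : ((j + 1 : ℕ) : ℝ) ≠ 0 := by positivity
        have h5 : ((j.factorial : ℕ) : ℝ) ≠ 0 := by positivity
        rw [show j + 1 - 1 = j from rfl]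
        field_simp
      exact (h1.sub h2).hasDerivWithinAt
    have hbd' : ∀ s ∈ Set.Icc (-|t|) |t|,
        ‖φ 1 s - ∑ j ∈ Finset.range k, φ (j + 1) 0 * s ^ j / (j.factorial : ℝ)‖ ≤
          M * |t| ^ k := by
      intro s hs
      have hs' : |s| ≤ |t| := abs_le.2 hs
      have h1 := hM s (hs'.trans ht1)
      rw [Real.norm_eq_abs]
      by_cases hM0 : 0 ≤ M
      · exact h1.trans (mul_le_mul_of_nonneg_left (pow_le_pow_left₀ (abs_nonneg _) hs' _) hM0)
      · exfalso
        push Not at hM0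
        have h2 := hM δ₁ (by rw [abs_of_pos hδ₁])
        have h3 : M * |δ₁| ^ k < 0 := mul_neg_of_neg_of_pos hM0 (by rw [abs_of_pos hδ₁]; positivity)
        linarith [abs_nonneg (φ (0 + 1) δ₁ - ∑ j ∈ Finset.range k,
          φ (j + 1) 0 * δ₁ ^ j / (j.factorial : ℝ))]
    have hmv := Convex.norm_image_sub_le_of_norm_hasDerivWithin_le hd hbd'
      (convex_Icc _ _) (show (0 : ℝ) ∈ Set.Icc (-|t|) |t| by simp)
      (show t ∈ Set.Icc (-|t|) |t| from ⟨neg_abs_le t, le_abs_self t⟩)
    have hψ0 : ψ 0 = 0 := by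
      rw [hψ]
      simp only
      rw [Finset.sum_range_succ']
      simp
    rw [hψ0, sub_zero, sub_zero, Real.norm_eq_abs, Real.norm_eq_abs] at hmv
    rw [pow_succ]
    calc _ = |ψ t| := rfl
      _ ≤ M * |t| ^ k * |t| := hmv
      _ = _ := by ring

variable {X : Type*} [NormedAddCommGroup X] [NormedSpace ℝ X]

theorem tay_gateaux {k : ℕ} (hk : 1 ≤ k) {f : X → ℝ} {U : Set X} (hU : IsOpen U)
    (hf : GateauxDiff k f U) (x : X) (hx : x ∈ U)
    (M : (j : ℕ) → ContinuousMultilinearMap ℝ (fun _ : Fin j => X) ℝ)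
    (hM : ∀ j, 1 ≤ j → j < k → ∀ h : Fin j → X, M j h = iterDeriv f (List.ofFn h) x) (h : X) :
    ∃ δ > 0, ∃ C : ℝ, ∀ t : ℝ, |t| ≤ δ →
      |f (x + t • h) - f x - poly k M (t • h)| ≤ C * |t| ^ k := by
  set φ : ℕ → ℝ → ℝ := fun j t => iterDeriv f (List.replicate j h) (x + t • h) with hφ
  have hcont : ContinuousAt (fun t : ℝ => x + t • h) 0 := by fun_prop
  have hmem : ∀ᶠ t : ℝ in 𝓝 0, x + t • h ∈ U :=
    hcont (hU.mem_nhds (by simpa using hx))
  obtain ⟨δ, hδ, hδU⟩ := Metric.eventually_nhds_iff.1 hmem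
  have hder : ∀ j < k, ∀ t : ℝ, |t| < δ → HasDerivAt (φ j) (φ (j + 1) t) t := by
    intro j hj t ht
    have hU' : x + t • h ∈ U := hδU (by rw [Real.dist_eq, sub_zero]; exact ht)
    have h1 := (hf (j + 1) (by omega) (by omega) (x + t • h) hU').1 h (List.replicate j h)
      (by simp)
    have h2 : HasDerivAt (fun s : ℝ => iterDeriv f (List.replicate j h) (x + t • h + s • h))
        (φ (j + 1) t) 0 := by
      have := h1.hasLineDerivAt
      exact this
    have h3 : HasDerivAt (fun s : ℝ => iterDeriv f (List.replicate j h) (x + t • h + (s - t) • h))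
        (φ (j + 1) t) t := by
      have h4 : HasDerivAt (fun s : ℝ => s - t) 1 t := (hasDerivAt_id t).sub_const t
      have h5 := HasDerivAt.comp (h := fun s : ℝ => s - t) (x := t)
        (h₂ := fun s : ℝ => iterDeriv f (List.replicate j h) (x + t • h + s • h))
        (h₂' := φ (j + 1) t) (h' := 1) (by simpa using h2) h4
      rw [mul_one] at h5
      exact h5
    refine h3.congr_of_eventuallyEq (Filter.Eventually.of_forall fun s => ?_)
    simp only [hφ]
    congr 1
    rw [sub_smul]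
    abel
  obtain ⟨δ', hδ', C, hC⟩ := tay_real k hk φ δ hδ hder
  refine ⟨δ', hδ', C, fun t ht => ?_⟩
  have h1 := hC t ht
  have h2 : f (x + t • h) - f x - poly k M (t • h) =
      φ 0 t - ∑ j ∈ Finset.range k, φ j 0 * t ^ j / (j.factorial : ℝ) := by
    have h3 : ∑ j ∈ Finset.range k, φ j 0 * t ^ j / (j.factorial : ℝ) =
        f x + poly k M (t • h) := by
      rw [Finset.range_eq_Ico, ← Finset.sum_Ico_consecutive _ (Nat.zero_le 1) hk]
      congr 1
      · simp [hφ, iterDeriv]
      · unfold poly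
        refine Finset.sum_congr rfl fun j hj => ?_
        rw [Finset.mem_Ico] at hj
        have h4 : M j (fun _ => t • h) = t ^ j * M j (fun _ => h) := by
          have := (M j).map_smul_univ (fun _ => t) (fun _ => h)
          simpa using this
        rw [h4, hM j hj.1 hj.2, List.ofFn_const]
        simp only [hφ, zero_smul, add_zero]
        ring
    rw [h3]
    simp only [hφ, List.replicate_zero, iterDeriv]
    ring
  rw [h2]
  exact h1

end GS
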